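import Mathlib

/-!
# Digit reversal and decomposition of Halton intervals into residue classes
-/

open Finset

namespace Pool.Agent.Helper3.Halton

/-- The radical inverse (van der Corput) function in base `b`. -/
noncomputable def radInv (b n : ℕ) : ℝ := ∑' j : ℕ, ((n / b ^ j % b : ℕ) : ℝ) / (b : ℝ) ^ (j + 1)

/-- Integer digit reversal with `K` digits. -/
def Phi (b : ℕ) : ℕ → ℕ → ℕ
  | 0, _ => 0
  | K + 1, n => b * Phi b K n + n / b ^ K % b

lemma Phi_succ (b K n : ℕ) : Phi b (K + 1) n = b * Phi b K n + n / b ^ K % b := rfl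

lemma Phi_sum {b : ℕ} (hb : 2 ≤ b) (K n : ℕ) :
    ∑ j ∈ range K, ((n / b ^ j % b : ℕ) : ℝ) / (b : ℝ) ^ (j + 1) = (Phi b K n : ℝ) / (b : ℝ) ^ K := by
  induction K with
  | zero => simp [Phi]
  | succ K ih =>
    rw [Finset.sum_range_succ, ih, Phi_succ]
    have : (b : ℝ) ≠ 0 := by positivity
    push_cast
    rw [pow_succ]
    field_simp

lemma radInv_eq {b : ℕ} (hb : 2 ≤ b) {K n : ℕ} (hn : n < b ^ K) :
    radInv b n = (Phi b K n : ℝ) / (b : ℝ) ^ K := by
  rw [← Phi_sum hb]
  unfold radInv
  apply tsum_eq_sum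
  intro j hj
  simp only [mem_range, not_lt] at hj
  have : n / b ^ j = 0 := by
    apply Nat.div_eq_of_lt
    exact lt_of_lt_of_le hn (Nat.pow_le_pow_right (by omega) hj)
  rw [this]
  simp

/-- residue class of integers with prescribed digit reversal -/
def rv (b : ℕ) : ℕ → ℕ → ℕ
  | 0, _ => 0
  | K + 1, v => rv b K (v / b) + b ^ K * (v % b)

lemma rv_lt {b : ℕ} (hb : 2 ≤ b) (K v : ℕ) : rv b K v < b ^ K := by
  induction K generalizing v with
  | zero => simp [rv]
  | succ K ih =>
    unfold rv
    have h1 := ih (v / b)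
    have h2 : v % b ≤ b - 1 := by
      have := Nat.mod_lt v (show 0 < b by omega)
      omega
    calc rv b K (v / b) + b ^ K * (v % b) < b ^ K + b ^ K * (v % b) := by omega
      _ ≤ b ^ K + b ^ K * (b - 1) := by
          have := Nat.mul_le_mul_left (b ^ K) h2
          omega
      _ = b ^ (K + 1) := by
          rw [pow_succ]
          obtain ⟨c, rfl⟩ : ∃ c, b = c + 1 := ⟨b - 1, by omega⟩
          simp only [Nat.add_sub_cancel]
          ring

lemma Phi_eq_iff {b : ℕ} (hb : 2 ≤ b) (K n v : ℕ) (hv : v < b ^ K) :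
    Phi b K n = v ↔ n ≡ rv b K v [MOD b ^ K] := by
  have key : Phi b K n = v ↔ n % b ^ K = rv b K v := by
    induction K generalizing v with
    | zero =>
      simp only [pow_zero, Nat.lt_one_iff] at hv
      subst hv
      simp [Phi, rv, Nat.mod_one]
    | succ K ih =>
      have hb0 : 0 < b := by omega
      have hv' : v / b < b ^ K := by
        rw [Nat.div_lt_iff_lt_mul hb0]
        rwa [pow_succ] at hv
      unfold Phi rv
      rw [Nat.mod_pow_succ]
      have hd : n / b ^ K % b < b := Nat.mod_lt _ hb0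
      have hdv : v % b < b := Nat.mod_lt _ hb0
      have h1 : b * Phi b K n + n / b ^ K % b = v ↔ Phi b K n = v / b ∧ n / b ^ K % b = v % b := by
        constructor
        · intro h
          subst h
          rw [Nat.mul_add_div hb0, Nat.div_eq_of_lt hd, Nat.mul_add_mod, Nat.mod_eq_of_lt hd]
          simp
        · rintro ⟨h2, h3⟩
          rw [h2, h3]
          exact Nat.div_add_mod v b
      have hr : rv b K (v / b) < b ^ K := rv_lt hb K _
      have hn : n % b ^ K < b ^ K := Nat.mod_lt _ (by positivity)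
      rw [h1, ih _ hv']
      constructor
      · rintro ⟨h2, h3⟩
        rw [h2, h3]
      · intro h
        have hp : 0 < b ^ K := by positivity
        have e1 := congrArg (fun x => x % b ^ K) h
        simp only [Nat.add_mul_mod_self_left, Nat.mod_mod, Nat.mod_eq_of_lt hr] at e1
        refine ⟨e1, ?_⟩
        rw [e1] at h
        have h4 : b ^ K * (n / b ^ K % b) = b ^ K * (v % b) := by omega
        exact Nat.eq_of_mul_eq_mul_left hp h4
  rw [key]
  unfold Nat.ModEq
  rw [Nat.mod_eq_of_lt (rv_lt hb K v)]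

/-- A function that is a bounded combination of indicators of residue classes modulo powers
of `b`, with mean value `μ`. -/
def Rep (b K B : ℕ) (f : ℕ → ℝ) (μ : ℝ) : Prop :=
  ∃ (κ : ℕ → ℕ → ℝ) (r : ℕ → ℕ → ℕ), (∀ j c, |κ j c| ≤ 1) ∧
    (∀ n, f n = ∑ j ∈ range (K + 1), ∑ c ∈ range B,
      κ j c * (if n ≡ r j c [MOD b ^ j] then 1 else 0)) ∧
    μ = ∑ j ∈ range (K + 1), ∑ c ∈ range B, κ j c / (b : ℝ) ^ j

lemma rep_lt {b : ℕ} (hb : 2 ≤ b) (K V : ℕ) (hV : V ≤ b ^ K) :
    Rep b K b (fun n => if Phi b K n < V then 1 else 0) ((V : ℝ) / (b : ℝ) ^ K) := by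
  induction K generalizing V with
  | zero =>
    simp only [pow_zero] at hV
    refine ⟨fun _ c => if c = 0 then (V : ℝ) else 0, fun _ _ => 0, ?_, ?_, ?_⟩
    · intro j c
      have : (V : ℝ) ≤ 1 := by exact_mod_cast hV
      beta_reduce
      split_ifs
      · rw [abs_of_nonneg (Nat.cast_nonneg _)]; exact this
      · simp
    · intro n
      simp only [zero_add, range_one, sum_singleton, pow_zero, Phi]
      rw [Finset.sum_eq_single 0]
      · have : n ≡ 0 [MOD 1] := Nat.modEq_one
        rw [if_pos rfl, if_pos this, mul_one]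
        interval_cases V <;> simp
      · intro c _ hc
        rw [if_neg hc, zero_mul]
      · intro h
        simp only [mem_range] at h
        omega
    · simp only [zero_add, range_one, sum_singleton, pow_zero, div_one]
      rw [Finset.sum_ite_eq' (range b) 0, if_pos (mem_range.mpr (by omega))]
  | succ K ih =>
    have hb0 : 0 < b := by omega
    have hV' : V / b ≤ b ^ K := by
      calc V / b ≤ b ^ (K + 1) / b := Nat.div_le_div_right hV
        _ = b ^ K := by rw [pow_succ, Nat.mul_div_cancel _ hb0]
    obtain ⟨κ, r, h1, h2, h3⟩ := ih (V / b) hV'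
    refine ⟨fun j c => if j ≤ K then κ j c else (if c < V % b then 1 else 0),
      fun j c => if j ≤ K then r j c else rv b (K + 1) (b * (V / b) + c), ?_, ?_, ?_⟩
    · intro j c
      beta_reduce
      split_ifs
      · exact h1 j c
      · simp
      · simp
    · intro n
      beta_reduce
      rw [Finset.sum_range_succ]
      have e1 : ∑ j ∈ range (K + 1), ∑ c ∈ range b,
          (if j ≤ K then κ j c else (if c < V % b then 1 else 0)) *
            (if n ≡ (if j ≤ K then r j c else rv b (K + 1) (b * (V / b) + c)) [MOD b ^ j]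
              then (1 : ℝ) else 0)
          = if Phi b K n < V / b then 1 else 0 := by
        have := h2 n
        simp only at this
        rw [this]
        refine Finset.sum_congr rfl fun j hj => Finset.sum_congr rfl fun c _ => ?_
        have hjK : j ≤ K := by
          rw [mem_range] at hj; omega
        rw [if_pos hjK, if_pos hjK]
      rw [e1]
      have hK : ¬ (K + 1 ≤ K) := by omega
      have hd : n / b ^ K % b < b := Nat.mod_lt _ hb0
      have hVb : V % b < b := Nat.mod_lt _ hb0
      have hVd : b * (V / b) + V % b = V := Nat.div_add_mod V b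
      have e2 : ∑ c ∈ range b, (if K + 1 ≤ K then κ (K + 1) c else (if c < V % b then 1 else 0)) *
            (if n ≡ (if K + 1 ≤ K then r (K + 1) c else rv b (K + 1) (b * (V / b) + c))
              [MOD b ^ (K + 1)] then (1 : ℝ) else 0)
          = if (Phi b K n = V / b ∧ n / b ^ K % b < V % b) then 1 else 0 := by
        have e3 : ∀ c ∈ range b,
            (if K + 1 ≤ K then κ (K + 1) c else (if c < V % b then 1 else 0)) *
            (if n ≡ (if K + 1 ≤ K then r (K + 1) c else rv b (K + 1) (b * (V / b) + c))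
              [MOD b ^ (K + 1)] then (1 : ℝ) else 0)
            = if c = n / b ^ K % b then
                (if (Phi b K n = V / b ∧ n / b ^ K % b < V % b) then 1 else 0) else 0 := by
          intro c hc
          rw [mem_range] at hc
          rw [if_neg hK, if_neg hK]
          by_cases hcV : c < V % b
          · rw [if_pos hcV, one_mul]
            have h5 : b * (V / b) + c < b ^ (K + 1) := by omega
            have h6 : (n ≡ rv b (K + 1) (b * (V / b) + c) [MOD b ^ (K + 1)])
                ↔ (Phi b K n = V / b ∧ n / b ^ K % b = c) := by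
              rw [← Phi_eq_iff hb (K + 1) n _ h5, Phi_succ]
              constructor
              · intro h7
                have h8 := congrArg (fun x => x / b) h7
                have h9 := congrArg (fun x => x % b) h7
                simp only [Nat.mul_add_div hb0, Nat.div_eq_of_lt hd, Nat.div_eq_of_lt hc,
                  add_zero] at h8
                simp only [Nat.mul_add_mod, Nat.mod_eq_of_lt hd, Nat.mod_eq_of_lt hc] at h9
                exact ⟨h8, h9⟩
              · rintro ⟨h7, h8⟩
                rw [h7, h8]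
            by_cases h7 : c = n / b ^ K % b
            · rw [if_pos h7]
              by_cases h8 : Phi b K n = V / b
              · rw [if_pos (h6.mpr ⟨h8, h7.symm⟩), if_pos ⟨h8, h7 ▸ hcV⟩]
              · rw [if_neg (fun h => h8 (h6.mp h).1), if_neg (fun h => h8 h.1)]
            · rw [if_neg h7, if_neg (fun h => h7 (h6.mp h).2.symm)]
          · rw [if_neg hcV, zero_mul]
            by_cases h7 : c = n / b ^ K % b
            · rw [if_pos h7, if_neg]
              rintro ⟨_, h8⟩
              rw [← h7] at h8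
              exact hcV h8
            · rw [if_neg h7]
        rw [Finset.sum_congr rfl e3, Finset.sum_ite_eq' (range b) (n / b ^ K % b)]
        rw [if_pos (mem_range.mpr hd)]
      rw [e2]
      have e4 : Phi b (K + 1) n < V ↔ (Phi b K n < V / b ∨
          (Phi b K n = V / b ∧ n / b ^ K % b < V % b)) := by
        have : Phi b (K + 1) n = b * Phi b K n + n / b ^ K % b := rfl
        rw [this]
        constructor
        · intro h
          rcases Nat.lt_trichotomy (Phi b K n) (V / b) with h5 | h5 | h5
          · exact Or.inl h5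
          · right
            refine ⟨h5, ?_⟩
            rw [h5] at h
            omega
          · exfalso
            have := Nat.mul_le_mul_left b (Nat.succ_le_of_lt h5)
            have h6 : b * (V / b).succ = b * (V / b) + b := by rw [Nat.mul_succ]
            omega
        · rintro (h5 | ⟨h5, h6⟩)
          · have := Nat.mul_le_mul_left b (Nat.succ_le_of_lt h5)
            have h6 : b * (Phi b K n).succ = b * Phi b K n + b := by rw [Nat.mul_succ]
            omega
          · rw [h5]; omega
      by_cases hA : Phi b K n < V / b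
      · have hB : ¬ (Phi b K n = V / b ∧ n / b ^ K % b < V % b) := fun h => by omega
        rw [if_pos hA, if_neg hB, if_pos (e4.mpr (Or.inl hA)), add_zero]
      · by_cases hB : (Phi b K n = V / b ∧ n / b ^ K % b < V % b)
        · rw [if_neg hA, if_pos hB, if_pos (e4.mpr (Or.inr hB)), zero_add]
        · rw [if_neg hA, if_neg hB, if_neg (fun h => by rcases e4.mp h with h | h <;> tauto),
            add_zero]
    · rw [Finset.sum_range_succ]
      have e1 : ∑ j ∈ range (K + 1), ∑ c ∈ range b,
          (if j ≤ K then κ j c else (if c < V % b then 1 else 0)) / (b : ℝ) ^ j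
          = ((V / b : ℕ) : ℝ) / (b : ℝ) ^ K := by
        rw [h3]
        refine Finset.sum_congr rfl fun j hj => Finset.sum_congr rfl fun c _ => ?_
        have hjK : j ≤ K := by
          rw [mem_range] at hj; omega
        rw [if_pos hjK]
      rw [e1]
      have hK : ¬ (K + 1 ≤ K) := by omega
      have hVb : V % b < b := Nat.mod_lt _ hb0
      have e2 : ∑ c ∈ range b, (if K + 1 ≤ K then κ (K + 1) c else (if c < V % b then 1 else 0)) /
          (b : ℝ) ^ (K + 1) = ((V % b : ℕ) : ℝ) / (b : ℝ) ^ (K + 1) := by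
        rw [← Finset.sum_div]
        congr 1
        simp only [if_neg hK]
        rw [← Finset.sum_filter, Finset.sum_const, nsmul_eq_mul, mul_one]
        congr 1
        have : (range b).filter (fun c => c < V % b) = range (V % b) := by
          ext c
          simp only [mem_filter, mem_range]
          omega
        rw [this, card_range]
      rw [e2]
      have hbR : (b : ℝ) ≠ 0 := by positivity
      have hVd : (b : ℝ) * ((V / b : ℕ) : ℝ) + ((V % b : ℕ) : ℝ) = (V : ℝ) := by
        exact_mod_cast Nat.div_add_mod V b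
      rw [← hVd, pow_succ]
      field_simp

lemma rep_sub {b K B : ℕ} {f g : ℕ → ℝ} {μ ν : ℝ} (hf : Rep b K B f μ) (hg : Rep b K B g ν) :
    Rep b K (B + B) (fun n => f n - g n) (μ - ν) := by
  obtain ⟨κ, r, h1, h2, h3⟩ := hf
  obtain ⟨κ', r', h1', h2', h3'⟩ := hg
  refine ⟨fun j c => if c < B then κ j c else - κ' j (c - B),
    fun j c => if c < B then r j c else r' j (c - B), ?_, ?_, ?_⟩
  · intro j c
    beta_reduce
    split_ifs
    · exact h1 _ _
    · rw [abs_neg]; exact h1' _ _
  · intro n
    beta_reduce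
    rw [h2, h2', ← Finset.sum_sub_distrib]
    refine Finset.sum_congr rfl fun j _ => ?_
    rw [Finset.sum_range_add, sub_eq_add_neg, ← Finset.sum_neg_distrib]
    congr 1
    · refine Finset.sum_congr rfl fun c hc => ?_
      rw [mem_range] at hc
      rw [if_pos hc, if_pos hc]
    · refine Finset.sum_congr rfl fun c _ => ?_
      have : ¬ (B + c < B) := by omega
      rw [if_neg this, if_neg this, Nat.add_sub_cancel_left, neg_mul]
  · beta_reduce
    rw [h3, h3', ← Finset.sum_sub_distrib]
    refine Finset.sum_congr rfl fun j _ => ?_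
    rw [Finset.sum_range_add, sub_eq_add_neg, ← Finset.sum_neg_distrib]
    congr 1
    · refine Finset.sum_congr rfl fun c hc => ?_
      rw [mem_range] at hc
      rw [if_pos hc]
    · refine Finset.sum_congr rfl fun c _ => ?_
      have : ¬ (B + c < B) := by omega
      rw [if_neg this, Nat.add_sub_cancel_left, neg_div]

lemma rep_Ico {b : ℕ} (hb : 2 ≤ b) (K U V : ℕ) (hUV : U ≤ V) (hV : V ≤ b ^ K) :
    Rep b K (b + b) (fun n => if (U ≤ Phi b K n ∧ Phi b K n < V) then 1 else 0)
      (((V : ℝ) - U) / (b : ℝ) ^ K) := by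
  have h := rep_sub (rep_lt hb K V hV) (rep_lt hb K U (hUV.trans hV))
  rw [sub_div]
  convert h using 2 with n
  by_cases h1 : Phi b K n < U
  · have h2 : Phi b K n < V := by omega
    have h3 : ¬ (U ≤ Phi b K n ∧ Phi b K n < V) := by omega
    rw [if_pos h1, if_pos h2, if_neg h3, sub_self]
  · by_cases h2 : Phi b K n < V
    · have h3 : (U ≤ Phi b K n ∧ Phi b K n < V) := by omega
      rw [if_neg h1, if_pos h2, if_pos h3, sub_zero]
    · have h3 : ¬ (U ≤ Phi b K n ∧ Phi b K n < V) := by omega
      rw [if_neg h1, if_neg h2, if_neg h3, sub_zero]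

/-- Chinese remainder theorem for the indicator functions. -/
lemma crt {s : ℕ} (m r : Fin s → ℕ) (hm : ∀ i, m i ≠ 0)
    (hco : Pairwise (fun i j => Nat.Coprime (m i) (m j))) :
    ∃ R, ∀ n, (∀ i, n ≡ r i [MOD m i]) ↔ n ≡ R [MOD ∏ i, m i] := by
  obtain ⟨R, hR⟩ := Nat.chineseRemainderOfFinset r m univ (fun i _ => hm i)
    (fun i _ j _ hij => hco hij)
  refine ⟨R, fun n => ?_⟩
  constructor
  · intro h
    have h1 : ∀ i, n ≡ R [MOD m i] := fun i => (h i).trans (hR i (mem_univ i)).symm
    have h2 : ∀ i ∈ (univ : Finset (Fin s)), (m i : ℤ) ∣ (R : ℤ) - n := fun i _ =>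
      Nat.modEq_iff_dvd.mp (h1 i)
    have h3 : (∏ i, (m i : ℤ)) ∣ (R : ℤ) - n := by
      apply Finset.prod_dvd_of_coprime
      · intro i _ j _ hij
        exact Nat.isCoprime_iff_coprime.mpr (hco hij)
      · exact h2
    rw [Nat.modEq_iff_dvd]
    push_cast
    exact h3
  · intro h i
    have h1 : n ≡ R [MOD m i] := h.of_dvd (Finset.dvd_prod_of_mem m (mem_univ i))
    exact h1.trans (hR i (mem_univ i))

/-- Combination of the residue-class errors. -/
theorem rep_prod {s : ℕ} (b : Fin s → ℕ) (hb : ∀ i, 2 ≤ b i)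
    (hco : Pairwise (fun i j => Nat.Coprime (b i) (b j))) (K : ℕ) (B : Fin s → ℕ)
    (f : Fin s → ℕ → ℝ) (μ : Fin s → ℝ) (hf : ∀ i, Rep (b i) K (B i) (f i) (μ i))
    (N : ℕ) (w : ℕ → ℝ) (T : ℝ) (err : (Fin s → ℕ) → ℝ)
    (herr : ∀ e ∈ Fintype.piFinset (fun _ : Fin s => range (K + 1)), ∀ R : ℕ,
      |∑ n ∈ range N, w n * (if n ≡ R [MOD ∏ i, b i ^ e i] then 1 else 0)
        - T / ((∏ i, b i ^ e i : ℕ) : ℝ)| ≤ err e) :
    |∑ n ∈ range N, w n * ∏ i, f i n - T * ∏ i, μ i|
      ≤ (∏ i, (B i : ℝ)) * ∑ e ∈ Fintype.piFinset (fun _ : Fin s => range (K + 1)), err e := by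
  classical
  choose κ r h1 h2 h3 using hf
  have hR : ∀ (e c : Fin s → ℕ), ∃ R, ∀ n, (∀ i, n ≡ r i (e i) (c i) [MOD b i ^ e i])
      ↔ n ≡ R [MOD ∏ i, b i ^ e i] := by
    intro e c
    apply crt
    · intro i
      have := hb i
      positivity
    · intro i j hij
      exact Nat.Coprime.pow _ _ (hco hij)
  choose R hR using hR
  have hprod : ∀ n, ∏ i, f i n = ∑ e ∈ Fintype.piFinset (fun _ : Fin s => range (K + 1)),
      ∑ c ∈ Fintype.piFinset (fun i : Fin s => range (B i)),
        (∏ i, κ i (e i) (c i)) * (if n ≡ R e c [MOD ∏ i, b i ^ e i] then 1 else 0) := by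
    intro n
    have e1 : ∏ i, f i n = ∏ i, ∑ j ∈ range (K + 1), ∑ c ∈ range (B i),
        κ i j c * (if n ≡ r i j c [MOD b i ^ j] then 1 else 0) :=
      Finset.prod_congr rfl fun i _ => h2 i n
    rw [e1, Finset.prod_univ_sum]
    refine Finset.sum_congr rfl fun e _ => ?_
    rw [Finset.prod_univ_sum]
    refine Finset.sum_congr rfl fun c _ => ?_
    rw [Finset.prod_mul_distrib]
    congr 1
    rw [Finset.prod_ite_zero]
    simp only [prod_const_one, mem_univ, forall_true_left]
    by_cases h : ∀ i, n ≡ r i (e i) (c i) [MOD b i ^ e i]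
    · rw [if_pos h, if_pos ((hR e c n).mp h)]
    · rw [if_neg h, if_neg (fun h' => h ((hR e c n).mpr h'))]
  have hmu : ∏ i, μ i = ∑ e ∈ Fintype.piFinset (fun _ : Fin s => range (K + 1)),
      ∑ c ∈ Fintype.piFinset (fun i : Fin s => range (B i)),
        (∏ i, κ i (e i) (c i)) * (1 / ((∏ i, b i ^ e i : ℕ) : ℝ)) := by
    have e1 : ∏ i, μ i = ∏ i, ∑ j ∈ range (K + 1), ∑ c ∈ range (B i), κ i j c / (b i : ℝ) ^ j :=
      Finset.prod_congr rfl fun i _ => h3 i
    rw [e1, Finset.prod_univ_sum]
    refine Finset.sum_congr rfl fun e _ => ?_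
    rw [Finset.prod_univ_sum]
    refine Finset.sum_congr rfl fun c _ => ?_
    rw [Finset.prod_div_distrib]
    push_cast
    ring
  have hkey : ∑ n ∈ range N, w n * ∏ i, f i n - T * ∏ i, μ i
      = ∑ e ∈ Fintype.piFinset (fun _ : Fin s => range (K + 1)),
        ∑ c ∈ Fintype.piFinset (fun i : Fin s => range (B i)), (∏ i, κ i (e i) (c i)) *
          (∑ n ∈ range N, w n * (if n ≡ R e c [MOD ∏ i, b i ^ e i] then 1 else 0)
            - T / ((∏ i, b i ^ e i : ℕ) : ℝ)) := by
    rw [hmu]
    have e1 : ∑ n ∈ range N, w n * ∏ i, f i n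
        = ∑ e ∈ Fintype.piFinset (fun _ : Fin s => range (K + 1)),
          ∑ c ∈ Fintype.piFinset (fun i : Fin s => range (B i)), (∏ i, κ i (e i) (c i)) *
          (∑ n ∈ range N, w n * (if n ≡ R e c [MOD ∏ i, b i ^ e i] then 1 else 0)) := by
      simp_rw [hprod, Finset.mul_sum]
      rw [Finset.sum_comm]
      refine Finset.sum_congr rfl fun e _ => ?_
      rw [Finset.sum_comm]
      refine Finset.sum_congr rfl fun c _ => Finset.sum_congr rfl fun n _ => ?_
      ring
    rw [e1, Finset.mul_sum, ← Finset.sum_sub_distrib]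
    refine Finset.sum_congr rfl fun e _ => ?_
    rw [Finset.mul_sum, ← Finset.sum_sub_distrib]
    refine Finset.sum_congr rfl fun c _ => ?_
    ring
  rw [hkey]
  refine (Finset.abs_sum_le_sum_abs _ _).trans ?_
  rw [Finset.mul_sum]
  refine Finset.sum_le_sum fun e he => ?_
  refine (Finset.abs_sum_le_sum_abs _ _).trans ?_
  calc ∑ c ∈ Fintype.piFinset (fun i : Fin s => range (B i)), |(∏ i, κ i (e i) (c i)) *
          (∑ n ∈ range N, w n * (if n ≡ R e c [MOD ∏ i, b i ^ e i] then 1 else 0)
            - T / ((∏ i, b i ^ e i : ℕ) : ℝ))|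
      ≤ ∑ c ∈ Fintype.piFinset (fun i : Fin s => range (B i)), err e := by
        refine Finset.sum_le_sum fun c _ => ?_
        rw [abs_mul]
        have h5 : |∏ i, κ i (e i) (c i)| ≤ 1 := by
          rw [Finset.abs_prod]
          exact Finset.prod_le_one (fun i _ => abs_nonneg _) (fun i _ => h1 i _ _)
        have h6 := herr e he (R e c)
        calc _ ≤ 1 * |∑ n ∈ range N, w n * (if n ≡ R e c [MOD ∏ i, b i ^ e i] then 1 else 0)
            - T / ((∏ i, b i ^ e i : ℕ) : ℝ)| := by
              refine mul_le_mul_of_nonneg_right h5 (abs_nonneg _)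
          _ ≤ err e := by rw [one_mul]; exact h6
    _ = (∏ i, (B i : ℝ)) * err e := by
        rw [Finset.sum_const, nsmul_eq_mul, Fintype.card_piFinset]
        simp

end Pool.Agent.Helper3.Halton
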