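import Pool.Agent.Helper3.Halton.Residue
import Pool.Agent.Helper3.Halton.Digits

/-!
# Assembling the discrepancy bound
-/

open Finset

namespace Pool.Agent.Helper3.Halton

lemma ceil_window {D : ℕ} (hD : 0 < D) (x : ℕ) (u v : ℝ) :
    (u ≤ (x : ℝ) / D ∧ (x : ℝ) / D < v) ↔ (⌈u * D⌉₊ ≤ x ∧ x < ⌈v * D⌉₊) := by
  have hD' : (0 : ℝ) < D := by exact_mod_cast hD
  rw [le_div_iff₀ hD', div_lt_iff₀ hD', Nat.ceil_le, Nat.lt_ceil]

lemma ceil_diff {D : ℕ} (hD : 0 < D) {u v : ℝ} (hu : 0 ≤ u) (huv : u ≤ v) (hv : v ≤ 1) :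
    ⌈u * D⌉₊ ≤ ⌈v * D⌉₊ ∧ ⌈v * D⌉₊ ≤ D ∧
      |((⌈v * D⌉₊ : ℝ) - ⌈u * D⌉₊) / D - (v - u)| ≤ 1 / D := by
  have hD' : (0 : ℝ) < D := by exact_mod_cast hD
  refine ⟨Nat.ceil_le_ceil (by gcongr), ?_, ?_⟩
  · rw [Nat.ceil_le]
    nlinarith
  · have h1 := Nat.le_ceil (u * D)
    have h2 := Nat.ceil_lt_add_one (show 0 ≤ u * D by positivity)
    have h3 := Nat.le_ceil (v * D)
    have h4 := Nat.ceil_lt_add_one (show 0 ≤ v * D from mul_nonneg (hu.trans huv) hD'.le)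
    have e : ((⌈v * D⌉₊ : ℝ) - ⌈u * D⌉₊) / D - (v - u)
        = (((⌈v * D⌉₊ : ℝ) - v * D) - ((⌈u * D⌉₊ : ℝ) - u * D)) / D := by
      field_simp
      ring
    rw [e, abs_div, abs_of_pos hD']
    apply div_le_div_of_nonneg_right _ hD'.le
    rw [abs_le]
    constructor <;> linarith

lemma abs_prod_sub_prod_le {ι : Type*} (S : Finset ι) (x y : ι → ℝ)
    (hx : ∀ i ∈ S, 0 ≤ x i ∧ x i ≤ 1) (hy : ∀ i ∈ S, 0 ≤ y i ∧ y i ≤ 1) :
    |∏ i ∈ S, x i - ∏ i ∈ S, y i| ≤ ∑ i ∈ S, |x i - y i| := by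
  classical
  induction S using Finset.induction_on with
  | empty => simp
  | insert a S ha ih =>
    rw [Finset.prod_insert ha, Finset.prod_insert ha, Finset.sum_insert ha]
    have hx' : ∀ i ∈ S, 0 ≤ x i ∧ x i ≤ 1 := fun i hi => hx i (mem_insert_of_mem hi)
    have hy' : ∀ i ∈ S, 0 ≤ y i ∧ y i ≤ 1 := fun i hi => hy i (mem_insert_of_mem hi)
    have h1 := ih hx' hy'
    have e : x a * ∏ i ∈ S, x i - y a * ∏ i ∈ S, y i
        = (x a - y a) * ∏ i ∈ S, x i + y a * (∏ i ∈ S, x i - ∏ i ∈ S, y i) := by ring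
    rw [e]
    refine (abs_add_le _ _).trans ?_
    rw [abs_mul, abs_mul]
    have h2 : |∏ i ∈ S, x i| ≤ 1 := by
      rw [Finset.abs_prod]
      exact Finset.prod_le_one (fun i _ => abs_nonneg _) fun i hi => by
        rw [abs_of_nonneg (hx' i hi).1]; exact (hx' i hi).2
    have h3 : |y a| ≤ 1 := by
      have := hy a (mem_insert_self a S)
      rw [abs_of_nonneg this.1]; exact this.2
    have h4 := abs_nonneg (x a - y a)
    have h5 := abs_nonneg (∏ i ∈ S, x i - ∏ i ∈ S, y i)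
    nlinarith [abs_nonneg (y a), abs_nonneg (∏ i ∈ S, x i)]

/-- The explicit bound for `N` times the discrepancy. -/
noncomputable def bnd (s t : ℕ) (b : Fin s → ℕ) (J Q : ℕ) : ℝ :=
  (1 + s + t) + (∏ i, ((b i + b i : ℕ) : ℝ)) *
    (((J + 2 : ℕ) : ℝ) ^ s + 24 * 40 ^ (t + 1) * (Q + 1) * ((J + 1 : ℕ) : ℝ) ^ t *
      ((J + 2 : ℕ) : ℝ) ^ s)

open Classical in
theorem main_bound {N : ℕ} [Fact N.Prime] {s t : ℕ} (b : Fin s → ℕ) (hb : ∀ i, 2 ≤ b i)
    (hco : Pairwise (fun i j => Nat.Coprime (b i) (b j))) (hN : ∀ i, Nat.Coprime (b i) N) (Q : ℕ)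
    (hQ : 4 * (5 * ((Nat.log 2 N + 1 : ℕ) : ℝ)) ^ (t + 1) * ((Nat.log 2 N + 2 : ℕ) : ℝ) ^ s
      ≤ 2 ^ Q) :
    ∃ g : Fin t → ℕ, (∀ j, 1 ≤ g j ∧ g j < N) ∧
      ∀ (u0 v0 : ℝ) (u1 v1 : Fin s → ℝ) (u2 v2 : Fin t → ℝ), (0 ≤ u0 ∧ u0 ≤ v0 ∧ v0 ≤ 1) →
        (∀ i, 0 ≤ u1 i ∧ u1 i ≤ v1 i ∧ v1 i ≤ 1) → (∀ j, 0 ≤ u2 j ∧ u2 j ≤ v2 j ∧ v2 j ≤ 1) →
        |(((range N).filter (fun n : ℕ => (u0 ≤ (n : ℝ) / N ∧ (n : ℝ) / N < v0) ∧
            (∀ i, u1 i ≤ radInv (b i) n ∧ radInv (b i) n < v1 i) ∧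
            (∀ j, u2 j ≤ Int.fract ((n : ℝ) * g j / N) ∧ Int.fract ((n : ℝ) * g j / N) < v2 j))).card
              : ℝ) / N - (v0 - u0) * ((∏ i, (v1 i - u1 i)) * ∏ j, (v2 j - u2 j))|
          ≤ bnd s t b (Nat.log 2 N) Q / N := by
  have hNp := (Fact.out : N.Prime)
  have hN0 : (0 : ℝ) < N := by exact_mod_cast hNp.pos
  set J := Nat.log 2 N with hJdef
  have hJ : N < 2 ^ (J + 1) := Nat.lt_pow_succ_log_self (by norm_num) N
  set K := J + 1 with hK
  -- the exponents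
  set E : Finset (Fin s → ℕ) := Fintype.piFinset (fun _ : Fin s => range (K + 1)) with hE
  set S : Finset (Fin s → ℕ) := E.filter (fun e => ∏ i, b i ^ e i < N) with hS
  have hcop : ∀ e : Fin s → ℕ, Nat.Coprime (∏ i, b i ^ e i) N := fun e =>
    Nat.Coprime.prod_left fun i _ => Nat.Coprime.pow_left _ (hN i)
  set U : (Fin s → ℕ) → (ZMod N)ˣ := fun e => ZMod.unitOfCoprime _ (hcop e) with hU
  have hEcard : (E.card : ℝ) = ((J + 2 : ℕ) : ℝ) ^ s := by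
    rw [hE, Fintype.card_piFinset]
    simp [hK]
    ring
  have hScard : (S.card : ℝ) ≤ ((J + 2 : ℕ) : ℝ) ^ s := by
    rw [← hEcard]
    exact_mod_cast Finset.card_le_card (Finset.filter_subset _ _)
  have hQ' : 4 * (5 * ((Nat.log 2 N + 1 : ℕ) : ℝ)) ^ (t + 1) * S.card ≤ 2 ^ Q := by
    refine le_trans ?_ hQ
    gcongr
  obtain ⟨G, hG⟩ := exists_good (N := N) (t := t) S U Q hQ'
  refine ⟨fun j => (G j : ZMod N).val, ?_, ?_⟩
  · intro j
    refine ⟨?_, ZMod.val_lt _⟩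
    have : (G j : ZMod N).val ≠ 0 := by
      rw [Ne, ZMod.val_eq_zero]
      exact (G j).ne_zero
    exact Nat.one_le_iff_ne_zero.mpr this
  intro u0 v0 u1 v1 u2 v2 h0 h1 h2
  -- rounding
  obtain ⟨a1, a2, a3⟩ := ceil_diff hNp.pos h0.1 h0.2.1 h0.2.2
  have hbK : ∀ i, 0 < b i ^ K := fun i => by
    have := hb i
    positivity
  have hNbK : ∀ i, N ≤ b i ^ K := fun i =>
    hJ.le.trans (Nat.pow_le_pow_left (hb i) K)
  have b123 : ∀ i, _ := fun i => ceil_diff (hbK i) (h1 i).1 (h1 i).2.1 (h1 i).2.2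
  have c123 : ∀ j, _ := fun j => ceil_diff hNp.pos (h2 j).1 (h2 j).2.1 (h2 j).2.2
  set P0 := ⌈u0 * N⌉₊ with hP0
  set Q0 := ⌈v0 * N⌉₊ with hQ0
  set U1 : Fin s → ℕ := fun i => ⌈u1 i * (b i ^ K : ℕ)⌉₊ with hU1
  set V1 : Fin s → ℕ := fun i => ⌈v1 i * (b i ^ K : ℕ)⌉₊ with hV1
  set U2 : Fin t → ℕ := fun j => ⌈u2 j * N⌉₊ with hU2
  set V2 : Fin t → ℕ := fun j => ⌈v2 j * N⌉₊ with hV2
  have hU2V2 : ∀ j, U2 j ≤ V2 j := fun j => (c123 j).1
  have hV2N : ∀ j, V2 j ≤ N := fun j => (c123 j).2.1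
  set f : Fin s → ℕ → ℝ := fun i n =>
    if (U1 i ≤ Phi (b i) K n ∧ Phi (b i) K n < V1 i) then 1 else 0 with hf
  set μ : Fin s → ℝ := fun i => ((V1 i : ℝ) - U1 i) / (b i : ℝ) ^ K with hμ
  have hrep : ∀ i, Rep (b i) K (b i + b i) (f i) (μ i) := fun i =>
    rep_Ico (hb i) K (U1 i) (V1 i) (b123 i).1 (b123 i).2.1
  -- the count
  have hcount : (((range N).filter (fun n : ℕ => (u0 ≤ (n : ℝ) / N ∧ (n : ℝ) / N < v0) ∧
            (∀ i, u1 i ≤ radInv (b i) n ∧ radInv (b i) n < v1 i) ∧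
            (∀ j, u2 j ≤ Int.fract ((n : ℝ) * ((G j : ZMod N).val : ℕ) / N) ∧
              Int.fract ((n : ℝ) * ((G j : ZMod N).val : ℕ) / N) < v2 j))).card : ℝ)
      = ∑ n ∈ range N, wgt P0 Q0 U2 V2 G n * ∏ i, f i n := by
    rw [Finset.card_eq_sum_ones]
    push_cast
    rw [Finset.sum_filter]
    refine Finset.sum_congr rfl fun n hn => ?_
    rw [mem_range] at hn
    unfold wgt
    rw [hf]
    beta_reduce
    rw [Finset.prod_ite_zero, Finset.prod_ite_zero]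
    simp only [prod_const_one, mem_univ, forall_true_left]
    have k0 : (u0 ≤ (n : ℝ) / N ∧ (n : ℝ) / N < v0) ↔ (P0 ≤ n ∧ n < Q0) := ceil_window hNp.pos n _ _
    have k1 : ∀ i, (u1 i ≤ radInv (b i) n ∧ radInv (b i) n < v1 i) ↔
        (U1 i ≤ Phi (b i) K n ∧ Phi (b i) K n < V1 i) := by
      intro i
      have hn' : n < b i ^ K := lt_of_lt_of_le hn (hNbK i)
      rw [radInv_eq (hb i) hn']
      have := ceil_window (hbK i) (Phi (b i) K n) (u1 i) (v1 i)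
      push_cast at this
      rw [this]
      simp only [hU1, hV1]
      push_cast
      rfl
    have k2 : ∀ j, (u2 j ≤ Int.fract ((n : ℝ) * ((G j : ZMod N).val : ℕ) / N) ∧
              Int.fract ((n : ℝ) * ((G j : ZMod N).val : ℕ) / N) < v2 j) ↔
        (U2 j ≤ ((n : ZMod N) * (G j : ZMod N)).val ∧ ((n : ZMod N) * (G j : ZMod N)).val < V2 j) := by
      intro j
      have e1 : Int.fract ((n : ℝ) * ((G j : ZMod N).val : ℕ) / N)
          = ((((n : ZMod N) * (G j : ZMod N)).val : ℕ) : ℝ) / N := by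
        have e2 : ((n : ZMod N) * (G j : ZMod N)) = ((n * (G j : ZMod N).val : ℕ) : ZMod N) := by
          push_cast
          rw [ZMod.natCast_zmod_val]
        rw [e2, ZMod.val_natCast]
        have := Int.fract_div_natCast_eq_div_natCast_mod (k := ℝ) (m := n * (G j : ZMod N).val)
          (n := N)
        rw [← this]
        push_cast
        rfl
      rw [e1]
      exact ceil_window hNp.pos _ _ _
    by_cases q0 : (P0 ≤ n ∧ n < Q0)
    · by_cases q1 : ∀ i, (U1 i ≤ Phi (b i) K n ∧ Phi (b i) K n < V1 i)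
      · by_cases q2 : ∀ j, (U2 j ≤ ((n : ZMod N) * (G j : ZMod N)).val ∧
            ((n : ZMod N) * (G j : ZMod N)).val < V2 j)
        · rw [if_pos ⟨k0.mpr q0, fun i => (k1 i).mpr (q1 i), fun j => (k2 j).mpr (q2 j)⟩,
            if_pos q0, if_pos q1, if_pos q2]
          norm_num
        · rw [if_neg (fun h => q2 (fun j => (k2 j).mp (h.2.2 j))), if_neg q2]
          ring
      · rw [if_neg (fun h => q1 (fun i => (k1 i).mp (h.2.1 i))), if_neg q1]
        ring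
    · rw [if_neg (fun h => q0 (k0.mp h.1)), if_neg q0]
      ring
  -- the residue class errors
  set err : (Fin s → ℕ) → ℝ := fun e =>
    if ∏ i, b i ^ e i < N then BB J (smulG (U e) G) + 1 else 1 with herrdef
  have herr : ∀ e ∈ E, ∀ R : ℕ,
      |∑ n ∈ range N, wgt P0 Q0 U2 V2 G n * (if n ≡ R [MOD ∏ i, b i ^ e i] then 1 else 0)
        - mainT N P0 Q0 U2 V2 / ((∏ i, b i ^ e i : ℕ) : ℝ)| ≤ err e := by
    intro e _ R
    have hMpos : 0 < ∏ i, b i ^ e i := Finset.prod_pos fun i _ => by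
      have := hb i
      positivity
    rw [herrdef]
    beta_reduce
    split_ifs with hlt
    · exact residue_small hMpos (U e) (by simp [hU]) a1 a2 hU2V2 hV2N G R
    · exact residue_large (by omega) a1 a2 hU2V2 hV2N G R
  have hmain := rep_prod b hb hco K (fun i => b i + b i) f μ hrep N (wgt P0 Q0 U2 V2 G)
    (mainT N P0 Q0 U2 V2) err herr
  have herrsum : ∑ e ∈ E, err e ≤ ((J + 2 : ℕ) : ℝ) ^ s +
      24 * 40 ^ (t + 1) * (Q + 1) * ((J + 1 : ℕ) : ℝ) ^ t * ((J + 2 : ℕ) : ℝ) ^ s := by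
    have e1 : ∑ e ∈ E, err e = ∑ e ∈ E, (1 : ℝ) + ∑ e ∈ S, BB J (smulG (U e) G) := by
      rw [hS, Finset.sum_filter, ← Finset.sum_add_distrib]
      refine Finset.sum_congr rfl fun e _ => ?_
      rw [herrdef]
      beta_reduce
      split_ifs <;> ring
    rw [e1]
    have e2 : ∑ e ∈ E, (1 : ℝ) = ((J + 2 : ℕ) : ℝ) ^ s := by
      rw [Finset.sum_const, nsmul_eq_mul, mul_one, hEcard]
    rw [e2]
    have e3 : ∑ e ∈ S, BB J (smulG (U e) G) ≤
        24 * 40 ^ (t + 1) * (Q + 1) * ((J + 1 : ℕ) : ℝ) ^ t * ((J + 2 : ℕ) : ℝ) ^ s := by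
      refine hG.trans ?_
      gcongr
    linarith
  -- volumes
  have hvol : |(mainT N P0 Q0 U2 V2 * ∏ i, μ i) / N -
      (v0 - u0) * ((∏ i, (v1 i - u1 i)) * ∏ j, (v2 j - u2 j))| ≤ (1 + s + t) / N := by
    -- as products over the sum type
    set X : Unit ⊕ (Fin s ⊕ Fin t) → ℝ := fun o => match o with
      | Sum.inl _ => ((Q0 : ℝ) - P0) / N
      | Sum.inr (Sum.inl i) => μ i
      | Sum.inr (Sum.inr j) => ((V2 j : ℝ) - U2 j) / N with hX
    set Y : Unit ⊕ (Fin s ⊕ Fin t) → ℝ := fun o => match o with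
      | Sum.inl _ => v0 - u0
      | Sum.inr (Sum.inl i) => v1 i - u1 i
      | Sum.inr (Sum.inr j) => v2 j - u2 j with hY
    have e1 : (mainT N P0 Q0 U2 V2 * ∏ i, μ i) / N = ∏ o, X o := by
      rw [Fintype.prod_sum_type, Fintype.prod_sum_type]
      simp only [hX, Fintype.prod_unique]
      unfold mainT
      ring
    have e2 : (v0 - u0) * ((∏ i, (v1 i - u1 i)) * ∏ j, (v2 j - u2 j)) = ∏ o, Y o := by
      rw [Fintype.prod_sum_type, Fintype.prod_sum_type]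
      simp only [hY, Fintype.prod_unique]
    rw [e1, e2]
    have hcast : ∀ {D A B : ℕ}, 0 < D → A ≤ B → B ≤ D → 0 ≤ ((B : ℝ) - A) / D ∧
        ((B : ℝ) - A) / D ≤ 1 := by
      intro D A B hD hAB hBD
      have hD' : (0 : ℝ) < D := by exact_mod_cast hD
      have hAB' : (A : ℝ) ≤ B := by exact_mod_cast hAB
      have hBD' : (B : ℝ) ≤ D := by exact_mod_cast hBD
      have hA : (0 : ℝ) ≤ A := Nat.cast_nonneg _
      refine ⟨div_nonneg (by linarith) hD'.le, ?_⟩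
      rw [div_le_one hD']
      linarith
    have hX01 : ∀ o, 0 ≤ X o ∧ X o ≤ 1 := by
      rintro (o | i | j)
      · exact hcast hNp.pos a1 a2
      · have := hcast (hbK i) (b123 i).1 (b123 i).2.1
        simp only [hX, hμ]
        push_cast at this
        exact_mod_cast this
      · exact hcast hNp.pos (hU2V2 j) (hV2N j)
    have hY01 : ∀ o, 0 ≤ Y o ∧ Y o ≤ 1 := by
      rintro (o | i | j)
      · simp only [hY]
        constructor <;> linarith [h0.1, h0.2.1, h0.2.2]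
      · simp only [hY]
        constructor <;> linarith [(h1 i).1, (h1 i).2.1, (h1 i).2.2]
      · simp only [hY]
        constructor <;> linarith [(h2 j).1, (h2 j).2.1, (h2 j).2.2]
    refine (abs_prod_sub_prod_le univ X Y (fun o _ => hX01 o) (fun o _ => hY01 o)).trans ?_
    have hd : ∀ o, |X o - Y o| ≤ 1 / N := by
      rintro (o | i | j)
      · exact a3
      · have e3 := (b123 i).2.2
        have e4 : (1 : ℝ) / ((b i ^ K : ℕ) : ℝ) ≤ 1 / N := by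
          apply one_div_le_one_div_of_le hN0
          exact_mod_cast hNbK i
        simp only [hX, hY, hμ]
        refine le_trans ?_ e4
        have e5 : ((b i : ℝ)) ^ K = ((b i ^ K : ℕ) : ℝ) := by push_cast; rfl
        rw [e5]
        exact e3
      · exact (c123 j).2.2
    refine (Finset.sum_le_sum fun o _ => hd o).trans (le_of_eq ?_)
    rw [Finset.sum_const, nsmul_eq_mul, Finset.card_univ]
    simp only [Fintype.card_sum, Fintype.card_unit, Fintype.card_fin]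
    push_cast
    ring
  rw [hcount]
  set T := mainT N P0 Q0 U2 V2 * ∏ i, μ i with hT
  set Sm := ∑ n ∈ range N, wgt P0 Q0 U2 V2 G n * ∏ i, f i n with hSm
  have hB0 : (0 : ℝ) ≤ ∏ i, ((b i + b i : ℕ) : ℝ) := Finset.prod_nonneg fun i _ => Nat.cast_nonneg _
  have h3 : |Sm - T| ≤ (∏ i, ((b i + b i : ℕ) : ℝ)) * (((J + 2 : ℕ) : ℝ) ^ s +
      24 * 40 ^ (t + 1) * (Q + 1) * ((J + 1 : ℕ) : ℝ) ^ t * ((J + 2 : ℕ) : ℝ) ^ s) :=
    hmain.trans (mul_le_mul_of_nonneg_left herrsum hB0)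
  have h4 : |Sm / N - T / N| ≤ ((∏ i, ((b i + b i : ℕ) : ℝ)) * (((J + 2 : ℕ) : ℝ) ^ s +
      24 * 40 ^ (t + 1) * (Q + 1) * ((J + 1 : ℕ) : ℝ) ^ t * ((J + 2 : ℕ) : ℝ) ^ s)) / N := by
    rw [← sub_div, abs_div, abs_of_pos hN0]
    exact div_le_div_of_nonneg_right h3 hN0.le
  calc |Sm / N - (v0 - u0) * ((∏ i, (v1 i - u1 i)) * ∏ j, (v2 j - u2 j))|
      = |(Sm / N - T / N) + (T / N - (v0 - u0) * ((∏ i, (v1 i - u1 i)) * ∏ j, (v2 j - u2 j)))| := by
        congr 1; ring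
    _ ≤ |Sm / N - T / N| + |T / N - (v0 - u0) * ((∏ i, (v1 i - u1 i)) * ∏ j, (v2 j - u2 j))| :=
        abs_add_le _ _
    _ ≤ _ + (1 + s + t) / N := add_le_add h4 hvol
    _ = bnd s t b J Q / N := by
        unfold bnd
        ring

end Pool.Agent.Helper3.Halton
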