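import Pool.Agent.Helper3.Halton.Sums

/-!
# Averages over generating vectors
-/

open Finset

namespace Pool.Agent.Helper3.Halton

section
variable {N : ℕ} [Fact N.Prime] {t : ℕ}

/-- The direction vector `(1, G)`. -/
def av (G : Fin t → (ZMod N)ˣ) : Option (Fin t) → ZMod N :=
  fun o => o.elim 1 (fun i => (G i : ZMod N))

@[simp] lemma av_none (G : Fin t → (ZMod N)ˣ) : av G none = 1 := rfl
@[simp] lemma av_some (G : Fin t → (ZMod N)ˣ) (i : Fin t) : av G (some i) = (G i : ZMod N) := rfl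

lemma card_units : Fintype.card (ZMod N)ˣ = N - 1 := by
  rw [ZMod.card_units_eq_totient, Nat.totient_prime Fact.out]

lemma sol_count (h : Option (Fin t) → ZMod N) (hh : h ≠ 0) :
    (N - 1) * (univ.filter (fun G : Fin t → (ZMod N)ˣ => ∑ o, h o * av G o = 0)).card
      ≤ Fintype.card (Fin t → (ZMod N)ˣ) := by
  classical
  by_cases h0 : ∀ i : Fin t, h (some i) = 0
  · have h1 : h none ≠ 0 := by
      intro h'
      apply hh
      ext o
      cases o with
      | none => exact h'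
      | some i => exact h0 i
    have : univ.filter (fun G : Fin t → (ZMod N)ˣ => ∑ o, h o * av G o = 0) = ∅ := by
      rw [Finset.filter_eq_empty_iff]
      intro G _
      rw [Fintype.sum_option]
      simp [h0, h1]
    rw [this]; simp
  · push Not at h0
    obtain ⟨i, hi⟩ := h0
    rw [← card_units (N := N), ← Finset.card_univ, ← Finset.card_product, ← Finset.card_univ]
    apply Finset.card_le_card_of_injOn
      (fun p : (ZMod N)ˣ × (Fin t → (ZMod N)ˣ) => Function.update p.2 i (p.1 * p.2 i))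
    · intro p _
      exact mem_coe.mpr (mem_univ _)
    · rintro ⟨l, G⟩ h1 ⟨l', G'⟩ h2 h3
      simp only [coe_product, coe_univ, Set.mem_prod, Set.mem_univ, true_and, coe_filter, mem_univ,
        Set.mem_setOf_eq] at h1 h2
      simp only at h3
      have h4 : ∀ k, k ≠ i → G k = G' k := by
        intro k hk
        have := congrFun h3 k
        rwa [Function.update_of_ne hk, Function.update_of_ne hk] at this
      have h5 : G i = G' i := by
        rw [Fintype.sum_option] at h1 h2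
        simp only [av_none, av_some] at h1 h2
        rw [← Finset.add_sum_erase _ _ (mem_univ i)] at h1 h2
        have h6 : ∑ x ∈ univ.erase i, h (some x) * (G x : ZMod N)
            = ∑ x ∈ univ.erase i, h (some x) * (G' x : ZMod N) := by
          refine Finset.sum_congr rfl fun k hk => ?_
          rw [h4 k (Finset.ne_of_mem_erase hk)]
        rw [h6] at h1
        have h7 : h (some i) * (G i : ZMod N) = h (some i) * (G' i : ZMod N) := by
          linear_combination h1 - h2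
        exact Units.ext (mul_left_cancel₀ hi h7)
      have h8 : G = G' := by
        ext k
        by_cases hk : k = i
        · rw [hk, h5]
        · rw [h4 k hk]
      subst h8
      have h9 := congrFun h3 i
      rw [Function.update_self, Function.update_self] at h9
      rw [mul_right_cancel h9]

lemma sol_count' (h : Option (Fin t) → ZMod N) (hh : h ≠ 0) :
    ((univ.filter (fun G : Fin t → (ZMod N)ˣ => ∑ o, h o * av G o = 0)).card : ℝ)
      ≤ 2 / N * Fintype.card (Fin t → (ZMod N)ˣ) := by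
  have h1 := sol_count h hh
  have hN : 2 ≤ N := (Fact.out : N.Prime).two_le
  have hN0 : (0 : ℝ) < N := by positivity
  have h2 : ((N : ℝ) - 1) * ((univ.filter (fun G : Fin t → (ZMod N)ˣ =>
      ∑ o, h o * av G o = 0)).card : ℝ) ≤ Fintype.card (Fin t → (ZMod N)ˣ) := by
    have : (((N - 1 : ℕ) : ℝ)) = (N : ℝ) - 1 := by
      rw [Nat.cast_sub (by omega)]; simp
    rw [← this]
    exact_mod_cast h1
  have hN' : (2 : ℝ) ≤ N := by exact_mod_cast hN
  have h3 : (N : ℝ) / 2 ≤ (N : ℝ) - 1 := by linarith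
  have h4 : (0 : ℝ) ≤ ((univ.filter (fun G : Fin t → (ZMod N)ˣ =>
      ∑ o, h o * av G o = 0)).card : ℝ) := Nat.cast_nonneg _
  rw [div_mul_eq_mul_div, le_div_iff₀ hN0]
  nlinarith

/-- number of short multiples -/
noncomputable def RR (W : Option (Fin t) → ℕ) (G : Fin t → (ZMod N)ˣ) : ℝ :=
  ((univ.filter (fun m : ZMod N => m ≠ 0 ∧ ∀ o, nrm (m * av G o) < W o)).card : ℝ)

lemma card_units_nrm (m : ZMod N) (hm : m ≠ 0) (W : ℕ) :
    ((univ.filter (fun u : (ZMod N)ˣ => nrm (m * (u : ZMod N)) < W)).card : ℝ) ≤ 2 * W := by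
  classical
  refine le_trans ?_ (card_nrm_lt (N := N) W)
  have : (univ.filter (fun u : (ZMod N)ˣ => nrm (m * (u : ZMod N)) < W)).card
      ≤ (univ.filter (fun h : ZMod N => h ≠ 0 ∧ nrm h < W)).card := by
    apply Finset.card_le_card_of_injOn (fun u : (ZMod N)ˣ => m * (u : ZMod N))
    · intro u hu
      simp only [coe_filter, mem_univ, true_and, Set.mem_setOf_eq] at hu ⊢
      exact ⟨mul_ne_zero hm u.ne_zero, hu⟩
    · intro u _ v _ huv
      exact Units.ext (mul_left_cancel₀ hm huv)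
  exact_mod_cast this

lemma sum_RR_le (W : Option (Fin t) → ℕ) :
    ∑ G : Fin t → (ZMod N)ˣ, RR W G ≤ ∏ o, (2 * (W o : ℝ)) := by
  classical
  have h1 : ∀ G : Fin t → (ZMod N)ˣ, RR W G
      = ∑ m ∈ univ.filter (fun m : ZMod N => m ≠ 0 ∧ nrm m < W none),
          ∏ i, (if nrm (m * (G i : ZMod N)) < W (some i) then (1 : ℝ) else 0) := by
    intro G
    unfold RR
    rw [Finset.card_eq_sum_ones]
    push_cast
    rw [Finset.sum_filter, Finset.sum_filter]
    refine Finset.sum_congr rfl fun m _ => ?_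
    rw [Finset.prod_ite_zero]
    simp only [prod_const_one, mem_univ, forall_true_left]
    have h2 : (m ≠ 0 ∧ ∀ o, nrm (m * av G o) < W o)
        ↔ ((m ≠ 0 ∧ nrm m < W none) ∧ ∀ i, nrm (m * (G i : ZMod N)) < W (some i)) := by
      rw [Option.forall]
      simp only [av_none, av_some, mul_one]
      tauto
    by_cases h3 : (m ≠ 0 ∧ nrm m < W none)
    · by_cases h4 : ∀ i, nrm (m * (G i : ZMod N)) < W (some i)
      · rw [if_pos (h2.mpr ⟨h3, h4⟩), if_pos h3, if_pos h4]
      · rw [if_neg (fun h => h4 (h2.mp h).2), if_pos h3, if_neg h4]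
    · rw [if_neg (fun h => h3 (h2.mp h).1), if_neg h3]
  simp_rw [h1]
  rw [Finset.sum_comm]
  have h3 : ∀ m ∈ univ.filter (fun m : ZMod N => m ≠ 0 ∧ nrm m < W none),
      ∑ G : Fin t → (ZMod N)ˣ, ∏ i, (if nrm (m * (G i : ZMod N)) < W (some i) then (1 : ℝ) else 0)
        ≤ ∏ i : Fin t, (2 * (W (some i) : ℝ)) := by
    intro m hm
    simp only [mem_filter, mem_univ, true_and] at hm
    have h4 := (Finset.prod_univ_sum (fun _ : Fin t => (univ : Finset (ZMod N)ˣ))
      (fun i u => (if nrm (m * (u : ZMod N)) < W (some i) then (1 : ℝ) else 0)))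
    rw [Fintype.piFinset_univ] at h4
    rw [← h4]
    refine Finset.prod_le_prod (fun i _ => Finset.sum_nonneg fun u _ => by split_ifs <;> norm_num)
      fun i _ => ?_
    rw [← Finset.sum_filter, Finset.sum_const, nsmul_eq_mul, mul_one]
    exact card_units_nrm m hm.1 _
  refine (Finset.sum_le_sum h3).trans ?_
  rw [Finset.sum_const, nsmul_eq_mul, Fintype.prod_option]
  refine mul_le_mul_of_nonneg_right (card_nrm_lt _) ?_
  exact Finset.prod_nonneg fun i _ => by positivity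

/-- Fourier error term for a dyadic box. -/
noncomputable def EE (j : Option (Fin t) → ℕ) (G : Fin t → (ZMod N)ˣ) : ℝ :=
  (N : ℝ) * ∑ h ∈ univ.filter (fun h : Option (Fin t) → ZMod N => h ≠ 0 ∧ ∑ o, h o * av G o = 0),
    ∏ o, (om N (j o) (nrm (h o)) / N)

lemma EE_nonneg (j : Option (Fin t) → ℕ) (G : Fin t → (ZMod N)ˣ) : 0 ≤ EE j G := by
  unfold EE
  refine mul_nonneg (Nat.cast_nonneg _) (Finset.sum_nonneg fun h _ => Finset.prod_nonneg fun o _ => ?_)
  exact div_nonneg (om_nonneg _ _ _) (Nat.cast_nonneg _)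

/-- The good generating vectors. -/
def Good (Z : ℝ) (G : Fin t → (ZMod N)ˣ) : Prop :=
  ∀ h : Option (Fin t) → ZMod N, h ≠ 0 → ∑ o, h o * av G o = 0 →
    Z ≤ ∏ o, ((max 1 (nrm (h o)) : ℕ) : ℝ)

open Classical in
/-- General averaging principle. -/
lemma sum_EE_le_of (A : Finset (Fin t → (ZMod N)ˣ)) (j : Option (Fin t) → ℕ)
    (wt : ZMod N → ℝ) (hwt : ∀ h, 0 ≤ wt h) (c : ℝ) (hc : 0 ≤ c)
    (hA : ∀ G ∈ A, ∀ h : Option (Fin t) → ZMod N, h ≠ 0 → ∑ o, h o * av G o = 0 →
      1 ≤ c * ∏ o, wt (h o)) :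
    ∑ G ∈ A, EE j G ≤ 2 * c * Fintype.card (Fin t → (ZMod N)ˣ) *
      ∏ o, ((∑ h : ZMod N, wt h * om N (j o) (nrm h)) / N) := by
  have hN0 : (0 : ℝ) < N := by
    exact_mod_cast (Fact.out : N.Prime).pos
  unfold EE
  rw [← Finset.mul_sum]
  have h1 : ∑ G ∈ A, ∑ h ∈ univ.filter (fun h : Option (Fin t) → ZMod N =>
        h ≠ 0 ∧ ∑ o, h o * av G o = 0), ∏ o, (om N (j o) (nrm (h o)) / N)
      = ∑ h ∈ univ.filter (fun h : Option (Fin t) → ZMod N => h ≠ 0),
          ∑ G ∈ A.filter (fun G => ∑ o, h o * av G o = 0), ∏ o, (om N (j o) (nrm (h o)) / N) := by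
    simp_rw [Finset.sum_filter]
    rw [Finset.sum_comm]
    refine Finset.sum_congr rfl fun h _ => ?_
    by_cases hh : h = 0
    · simp [hh]
    · simp only [ne_eq, hh, not_false_eq_true, true_and, if_true]
  rw [h1]
  have h2 : ∀ h ∈ univ.filter (fun h : Option (Fin t) → ZMod N => h ≠ 0),
      ∑ G ∈ A.filter (fun G => ∑ o, h o * av G o = 0), ∏ o, (om N (j o) (nrm (h o)) / N)
      ≤ (2 / N * Fintype.card (Fin t → (ZMod N)ˣ) * c) *
        ∏ o, (wt (h o) * om N (j o) (nrm (h o)) / N) := by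
    intro h hh
    simp only [mem_filter, mem_univ, true_and] at hh
    rw [Finset.sum_const, nsmul_eq_mul]
    have hP : 0 ≤ ∏ o, (om N (j o) (nrm (h o)) / N) :=
      Finset.prod_nonneg fun o _ => div_nonneg (om_nonneg _ _ _) hN0.le
    have hprod : ∏ o, (wt (h o) * om N (j o) (nrm (h o)) / N)
        = (∏ o, wt (h o)) * ∏ o, (om N (j o) (nrm (h o)) / N) := by
      rw [← Finset.prod_mul_distrib]
      exact Finset.prod_congr rfl fun o _ => by ring
    rw [hprod]
    have hcard : ((A.filter (fun G => ∑ o, h o * av G o = 0)).card : ℝ)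
        ≤ (2 / N * Fintype.card (Fin t → (ZMod N)ˣ)) * (c * ∏ o, wt (h o)) := by
      by_cases hemp : (A.filter (fun G => ∑ o, h o * av G o = 0)) = ∅
      · rw [hemp, card_empty, Nat.cast_zero]
        have : 0 ≤ ∏ o, wt (h o) := Finset.prod_nonneg fun o _ => hwt _
        positivity
      · obtain ⟨G, hG⟩ := Finset.nonempty_iff_ne_empty.mpr hemp
        rw [mem_filter] at hG
        have h3 := hA G hG.1 h hh hG.2
        have h4 : ((A.filter (fun G => ∑ o, h o * av G o = 0)).card : ℝ)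
            ≤ 2 / N * Fintype.card (Fin t → (ZMod N)ˣ) := by
          refine le_trans ?_ (sol_count' h hh)
          have := Finset.card_le_card (Finset.filter_subset_filter
            (fun G : Fin t → (ZMod N)ˣ => ∑ o, h o * av G o = 0) (Finset.subset_univ A))
          exact_mod_cast this
        have h5 : 0 ≤ 2 / (N : ℝ) * Fintype.card (Fin t → (ZMod N)ˣ) := by positivity
        nlinarith
    calc ((A.filter (fun G => ∑ o, h o * av G o = 0)).card : ℝ) * ∏ o, (om N (j o) (nrm (h o)) / N)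
        ≤ ((2 / N * Fintype.card (Fin t → (ZMod N)ˣ)) * (c * ∏ o, wt (h o))) *
            ∏ o, (om N (j o) (nrm (h o)) / N) := mul_le_mul_of_nonneg_right hcard hP
      _ = _ := by ring
  have h3 : ∑ h ∈ univ.filter (fun h : Option (Fin t) → ZMod N => h ≠ 0),
      ∏ o, (wt (h o) * om N (j o) (nrm (h o)) / N)
      ≤ ∏ o, ((∑ h : ZMod N, wt h * om N (j o) (nrm h)) / N) := by
    have h4 := (Finset.prod_univ_sum (fun _ : Option (Fin t) => (univ : Finset (ZMod N)))
      (fun o h => (wt h * om N (j o) (nrm h) / N)))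
    rw [Fintype.piFinset_univ] at h4
    have h5 : ∀ o : Option (Fin t), ((∑ h : ZMod N, wt h * om N (j o) (nrm h)) / N)
        = ∑ h : ZMod N, (wt h * om N (j o) (nrm h) / N) := fun o => by rw [Finset.sum_div]
    simp_rw [h5]
    rw [h4]
    refine Finset.sum_le_sum_of_subset_of_nonneg (Finset.subset_univ _) fun h _ _ => ?_
    exact Finset.prod_nonneg fun o _ =>
      div_nonneg (mul_nonneg (hwt _) (om_nonneg _ _ _)) hN0.le
  calc (N : ℝ) * ∑ h ∈ univ.filter (fun h : Option (Fin t) → ZMod N => h ≠ 0),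
          ∑ G ∈ A.filter (fun G => ∑ o, h o * av G o = 0), ∏ o, (om N (j o) (nrm (h o)) / N)
      ≤ (N : ℝ) * ∑ h ∈ univ.filter (fun h : Option (Fin t) → ZMod N => h ≠ 0),
          (2 / N * Fintype.card (Fin t → (ZMod N)ˣ) * c) *
            ∏ o, (wt (h o) * om N (j o) (nrm (h o)) / N) := by
        refine mul_le_mul_of_nonneg_left (Finset.sum_le_sum h2) hN0.le
    _ = (2 * c * Fintype.card (Fin t → (ZMod N)ˣ)) *
          ∑ h ∈ univ.filter (fun h : Option (Fin t) → ZMod N => h ≠ 0),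
            ∏ o, (wt (h o) * om N (j o) (nrm (h o)) / N) := by
        rw [← Finset.mul_sum]
        field_simp
    _ ≤ _ := by
        refine mul_le_mul_of_nonneg_left h3 (by positivity)

lemma sum_EE_le (A : Finset (Fin t → (ZMod N)ˣ)) (j : Option (Fin t) → ℕ)
    (hj : ∀ o, 2 ^ (j o) ≤ N) :
    ∑ G ∈ A, EE j G ≤ 2 * 16 ^ (t + 1) * Fintype.card (Fin t → (ZMod N)ˣ) := by
  have hN0 : (0 : ℝ) < N := by
    exact_mod_cast (Fact.out : N.Prime).pos
  refine (sum_EE_le_of A j (fun _ => 1) (fun _ => zero_le_one) 1 zero_le_one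
    (fun G _ h _ _ => by simp)).trans ?_
  have h1 : ∏ o : Option (Fin t), ((∑ h : ZMod N, (1 : ℝ) * om N (j o) (nrm h)) / N)
      ≤ 16 ^ (t + 1) := by
    calc ∏ o : Option (Fin t), ((∑ h : ZMod N, (1 : ℝ) * om N (j o) (nrm h)) / N)
        ≤ ∏ o : Option (Fin t), (16 : ℝ) := by
          refine Finset.prod_le_prod (fun o _ => ?_) fun o _ => ?_
          · exact div_nonneg (Finset.sum_nonneg fun h _ => by
              rw [one_mul]; exact om_nonneg _ _ _) hN0.le
          · simp_rw [one_mul]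
            rw [div_le_iff₀ hN0]
            exact sum_om_le (hj o)
      _ = 16 ^ (t + 1) := by simp
  calc 2 * 1 * (Fintype.card (Fin t → (ZMod N)ˣ) : ℝ) *
        ∏ o : Option (Fin t), ((∑ h : ZMod N, (1 : ℝ) * om N (j o) (nrm h)) / N)
      ≤ 2 * 1 * (Fintype.card (Fin t → (ZMod N)ˣ) : ℝ) * 16 ^ (t + 1) := by
        refine mul_le_mul_of_nonneg_left h1 (by positivity)
    _ = _ := by ring

lemma sum_EE_good_le {Z : ℝ} (hZ : 0 < Z) (A : Finset (Fin t → (ZMod N)ˣ))
    (hA : ∀ G ∈ A, Good Z G) (j : Option (Fin t) → ℕ) (hj : ∀ o, 2 ^ (j o) ≤ N) :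
    ∑ G ∈ A, EE j G ≤ 2 * 20 ^ (t + 1) * Real.sqrt ((∏ o, ((N : ℝ) / 2 ^ (j o))) / Z) *
      Fintype.card (Fin t → (ZMod N)ˣ) := by
  have hN0 : (0 : ℝ) < N := by
    exact_mod_cast (Fact.out : N.Prime).pos
  refine (sum_EE_le_of A j (fun h => Real.sqrt ((max 1 (nrm h) : ℕ) : ℝ))
    (fun _ => Real.sqrt_nonneg _) (1 / Real.sqrt Z) (by positivity)
    (fun G hG h hh hs => ?_)).trans ?_
  · have h1 := hA G hG h hh hs
    rw [← Real.sqrt_prod _ (fun o _ => Nat.cast_nonneg _)]
    rw [one_div_mul_eq_div, le_div_iff₀ (Real.sqrt_pos.mpr hZ), one_mul]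
    exact Real.sqrt_le_sqrt h1
  have h1 : ∏ o : Option (Fin t), ((∑ h : ZMod N, Real.sqrt ((max 1 (nrm h) : ℕ) : ℝ) *
        om N (j o) (nrm h)) / N)
      ≤ 20 ^ (t + 1) * Real.sqrt (∏ o, ((N : ℝ) / 2 ^ (j o))) := by
    calc ∏ o : Option (Fin t), ((∑ h : ZMod N, Real.sqrt ((max 1 (nrm h) : ℕ) : ℝ) *
        om N (j o) (nrm h)) / N)
        ≤ ∏ o : Option (Fin t), (20 * Real.sqrt ((N : ℝ) / 2 ^ (j o))) := by
          refine Finset.prod_le_prod (fun o _ => ?_) fun o _ => ?_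
          · exact div_nonneg (Finset.sum_nonneg fun h _ =>
              mul_nonneg (Real.sqrt_nonneg _) (om_nonneg _ _ _)) hN0.le
          · rw [div_le_iff₀ hN0]
            refine (sum_sqrt_om_le (hj o)).trans (le_of_eq (by ring))
      _ = 20 ^ (t + 1) * Real.sqrt (∏ o, ((N : ℝ) / 2 ^ (j o))) := by
          rw [Finset.prod_mul_distrib, Real.sqrt_prod _ (fun o _ => by positivity)]
          simp
  calc 2 * (1 / Real.sqrt Z) * (Fintype.card (Fin t → (ZMod N)ˣ) : ℝ) *
        ∏ o : Option (Fin t), ((∑ h : ZMod N, Real.sqrt ((max 1 (nrm h) : ℕ) : ℝ) *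
          om N (j o) (nrm h)) / N)
      ≤ 2 * (1 / Real.sqrt Z) * (Fintype.card (Fin t → (ZMod N)ˣ) : ℝ) *
          (20 ^ (t + 1) * Real.sqrt (∏ o, ((N : ℝ) / 2 ^ (j o)))) := by
        refine mul_le_mul_of_nonneg_left h1 (by positivity)
    _ = _ := by
        rw [Real.sqrt_div (Finset.prod_nonneg fun o _ => by positivity)]
        ring

open Classical in
lemma bad_count {Z : ℝ} (hZ : 0 < Z) :
    ((univ.filter (fun G : Fin t → (ZMod N)ˣ => ¬ Good Z G)).card : ℝ)
      ≤ 2 * Z / N * (5 * (Nat.log 2 N + 1 : ℕ)) ^ (t + 1) * Fintype.card (Fin t → (ZMod N)ˣ) := by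
  have hN0 : (0 : ℝ) < N := by
    exact_mod_cast (Fact.out : N.Prime).pos
  -- union bound
  have h1 : (univ.filter (fun G : Fin t → (ZMod N)ˣ => ¬ Good Z G))
      ⊆ (univ.filter (fun h : Option (Fin t) → ZMod N =>
          h ≠ 0 ∧ ∏ o, ((max 1 (nrm (h o)) : ℕ) : ℝ) < Z)).biUnion
        (fun h => univ.filter (fun G : Fin t → (ZMod N)ˣ => ∑ o, h o * av G o = 0)) := by
    intro G hG
    simp only [mem_filter, mem_univ, true_and] at hG
    unfold Good at hG
    push Not at hG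
    obtain ⟨h, hh, hs, hp⟩ := hG
    simp only [mem_biUnion, mem_filter, mem_univ, true_and]
    exact ⟨h, ⟨hh, hp⟩, hs⟩
  have h2 := (Finset.card_le_card h1).trans Finset.card_biUnion_le
  have h3 : ((univ.filter (fun G : Fin t → (ZMod N)ˣ => ¬ Good Z G)).card : ℝ)
      ≤ ∑ h ∈ univ.filter (fun h : Option (Fin t) → ZMod N =>
          h ≠ 0 ∧ ∏ o, ((max 1 (nrm (h o)) : ℕ) : ℝ) < Z),
        ((univ.filter (fun G : Fin t → (ZMod N)ˣ => ∑ o, h o * av G o = 0)).card : ℝ) := by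
    exact_mod_cast h2
  refine h3.trans ?_
  have h4 : ∀ h ∈ univ.filter (fun h : Option (Fin t) → ZMod N =>
          h ≠ 0 ∧ ∏ o, ((max 1 (nrm (h o)) : ℕ) : ℝ) < Z),
        ((univ.filter (fun G : Fin t → (ZMod N)ˣ => ∑ o, h o * av G o = 0)).card : ℝ)
        ≤ (2 / N * Fintype.card (Fin t → (ZMod N)ˣ) * Z) *
            ∏ o, (1 / ((max 1 (nrm (h o)) : ℕ) : ℝ)) := by
    intro h hh
    simp only [mem_filter, mem_univ, true_and] at hh
    refine (sol_count' h hh.1).trans ?_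
    have hpos : 0 < ∏ o, ((max 1 (nrm (h o)) : ℕ) : ℝ) := by
      refine Finset.prod_pos fun o _ => ?_
      have : 0 < max 1 (nrm (h o)) := by omega
      exact_mod_cast this
    have h5 : 1 ≤ Z * ∏ o, (1 / ((max 1 (nrm (h o)) : ℕ) : ℝ)) := by
      rw [Finset.prod_div_distrib, Finset.prod_const_one, mul_one_div, le_div_iff₀ hpos, one_mul]
      exact hh.2.le
    have h6 : 0 ≤ 2 / (N : ℝ) * Fintype.card (Fin t → (ZMod N)ˣ) := by positivity
    nlinarith
  refine (Finset.sum_le_sum h4).trans ?_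
  rw [← Finset.mul_sum]
  have h5 : ∑ h ∈ univ.filter (fun h : Option (Fin t) → ZMod N =>
          h ≠ 0 ∧ ∏ o, ((max 1 (nrm (h o)) : ℕ) : ℝ) < Z),
      ∏ o, (1 / ((max 1 (nrm (h o)) : ℕ) : ℝ)) ≤ (5 * (Nat.log 2 N + 1 : ℕ)) ^ (t + 1) := by
    have h6 := (Finset.prod_univ_sum (fun _ : Option (Fin t) => (univ : Finset (ZMod N)))
      (fun _ h => (1 / ((max 1 (nrm h) : ℕ) : ℝ))))
    rw [Fintype.piFinset_univ] at h6
    calc ∑ h ∈ univ.filter (fun h : Option (Fin t) → ZMod N =>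
          h ≠ 0 ∧ ∏ o, ((max 1 (nrm (h o)) : ℕ) : ℝ) < Z),
      ∏ o, (1 / ((max 1 (nrm (h o)) : ℕ) : ℝ))
        ≤ ∑ h : Option (Fin t) → ZMod N, ∏ o, (1 / ((max 1 (nrm (h o)) : ℕ) : ℝ)) := by
          refine Finset.sum_le_sum_of_subset_of_nonneg (Finset.subset_univ _) fun h _ _ => ?_
          exact Finset.prod_nonneg fun o _ => by positivity
      _ = ∏ o : Option (Fin t), ∑ h : ZMod N, (1 / ((max 1 (nrm h) : ℕ) : ℝ)) := h6.symm
      _ ≤ ∏ o : Option (Fin t), (5 * ((Nat.log 2 N + 1 : ℕ) : ℝ)) := by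
          refine Finset.prod_le_prod (fun o _ => Finset.sum_nonneg fun h _ => by positivity)
            fun o _ => sum_inv_nrm_le
      _ = _ := by simp
  calc (2 / N * (Fintype.card (Fin t → (ZMod N)ˣ) : ℝ) * Z) *
        ∑ h ∈ univ.filter (fun h : Option (Fin t) → ZMod N =>
          h ≠ 0 ∧ ∏ o, ((max 1 (nrm (h o)) : ℕ) : ℝ) < Z),
      ∏ o, (1 / ((max 1 (nrm (h o)) : ℕ) : ℝ))
      ≤ (2 / N * (Fintype.card (Fin t → (ZMod N)ˣ) : ℝ) * Z) *
          (5 * (Nat.log 2 N + 1 : ℕ)) ^ (t + 1) := by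
        refine mul_le_mul_of_nonneg_left h5 (by positivity)
    _ = _ := by ring

end

end Pool.Agent.Helper3.Halton
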