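import Pool.Agent.Helper3.Halton.Average

/-!
# Deterministic bound for the number of lattice points in a box
-/

open Finset

namespace Pool.Agent.Helper3.Halton

section
variable {N : ℕ} [Fact N.Prime] {t : ℕ}

lemma nrm_sub_lt {x x' : ZMod N} {W : ℕ} (h1 : x.val < x'.val + W) (h2 : x'.val < x.val + W) :
    nrm (x - x') < W := by
  have hN := (Fact.out : N.Prime).pos
  have h3 : ((x - x').valMinAbs : ZMod N) = (((x.val : ℤ) - (x'.val : ℤ) : ℤ) : ZMod N) := by
    rw [ZMod.coe_valMinAbs]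
    push_cast
    rw [ZMod.natCast_zmod_val, ZMod.natCast_zmod_val]
  have h4 : (x - x').valMinAbs.natAbs ≤ ((x.val : ℤ) - (x'.val : ℤ)).natAbs := by
    apply ZMod.natAbs_min_of_le_div_two N _ _ h3
    exact ZMod.natAbs_valMinAbs_le _
  unfold nrm
  omega

/-- The set of `m` for which every coordinate lies in one of the two end windows. -/
def winSet (W L : Option (Fin t) → ℕ) (G : Fin t → (ZMod N)ˣ) (y : Option (Fin t) → ZMod N) :
    Finset (ZMod N) :=
  univ.filter (fun m : ZMod N => ∀ o, (m * av G o + y o).val < L o ∧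
    ((m * av G o + y o).val < W o ∨ L o ≤ (m * av G o + y o).val + W o))

lemma winSet_card (W L : Option (Fin t) → ℕ) (G : Fin t → (ZMod N)ˣ)
    (y : Option (Fin t) → ZMod N) :
    ((winSet W L G y).card : ℝ) ≤ 2 ^ (t + 1) * (1 + RR W G) := by
  classical
  -- the pieces
  let P : (Option (Fin t) → Bool) → Finset (ZMod N) := fun σ =>
    univ.filter (fun m : ZMod N => ∀ o, if σ o then (m * av G o + y o).val < W o
      else ((m * av G o + y o).val < L o ∧ L o ≤ (m * av G o + y o).val + W o))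
  have h1 : winSet W L G y ⊆ (univ : Finset (Option (Fin t) → Bool)).biUnion P := by
    intro m hm
    unfold winSet at hm
    simp only [mem_filter, mem_univ, true_and] at hm
    simp only [mem_biUnion, mem_univ, true_and, P, mem_filter]
    refine ⟨fun o => decide ((m * av G o + y o).val < W o), fun o => ?_⟩
    by_cases h : (m * av G o + y o).val < W o
    · simp [h]
    · simp only [h, decide_false, Bool.false_eq_true, if_false]
      exact ⟨(hm o).1, ((hm o).2).resolve_left h⟩
  have h2 : ∀ σ, ((P σ).card : ℝ) ≤ 1 + RR W G := by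
    intro σ
    unfold RR
    rcases (P σ).eq_empty_or_nonempty with hP | ⟨m0, hm0⟩
    · rw [hP, card_empty]
      have : (0 : ℝ) ≤ ((univ.filter (fun m : ZMod N =>
        m ≠ 0 ∧ ∀ o, nrm (m * av G o) < W o)).card : ℝ) := Nat.cast_nonneg _
      push_cast
      linarith
    · have h3 : (P σ).card = ((P σ).erase m0).card + 1 :=
        (Finset.card_erase_add_one hm0).symm
      have h4 : ((P σ).erase m0).card
          ≤ (univ.filter (fun m : ZMod N => m ≠ 0 ∧ ∀ o, nrm (m * av G o) < W o)).card := by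
        apply Finset.card_le_card_of_injOn (fun m => m - m0)
        · intro m hm
          simp only [coe_erase, Set.mem_sdiff, mem_coe, Set.mem_singleton_iff] at hm
          simp only [coe_filter, mem_univ, true_and, Set.mem_ofPred_eq]
          refine ⟨sub_ne_zero.mpr hm.2, fun o => ?_⟩
          have hm1 := hm.1
          simp only [P, mem_filter, mem_univ, true_and] at hm1 hm0
          have e : (m - m0) * av G o = (m * av G o + y o) - (m0 * av G o + y o) := by ring
          rw [e]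
          have a1 := hm1 o
          have a2 := hm0 o
          apply nrm_sub_lt
          · by_cases hσ : σ o
            · simp only [hσ, if_true] at a1 a2; omega
            · simp only [hσ, Bool.false_eq_true, if_false] at a1 a2; omega
          · by_cases hσ : σ o
            · simp only [hσ, if_true] at a1 a2; omega
            · simp only [hσ, Bool.false_eq_true, if_false] at a1 a2; omega
        · intro m _ m' _ hmm
          simpa using hmm
      rw [h3]
      push_cast
      have h5 : (((P σ).erase m0).card : ℝ)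
          ≤ ((univ.filter (fun m : ZMod N => m ≠ 0 ∧ ∀ o, nrm (m * av G o) < W o)).card : ℝ) := by
        exact_mod_cast h4
      linarith
  have h3 : ((winSet W L G y).card : ℝ)
      ≤ ∑ σ : Option (Fin t) → Bool, ((P σ).card : ℝ) := by
    exact_mod_cast (Finset.card_le_card h1).trans Finset.card_biUnion_le
  refine h3.trans ((Finset.sum_le_sum fun σ _ => h2 σ).trans (le_of_eq ?_))
  rw [Finset.sum_const, nsmul_eq_mul, Finset.card_univ]
  simp

/-- combine exponents -/
def jj (j0 : ℕ) (j : Fin t → ℕ) : Option (Fin t) → ℕ := fun o => o.elim j0 j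

@[simp] lemma jj_none (j0 : ℕ) (j : Fin t → ℕ) : jj j0 j none = j0 := rfl
@[simp] lemma jj_some (j0 : ℕ) (j : Fin t → ℕ) (i : Fin t) : jj j0 j (some i) = j i := rfl

/-- The index set for the exponents of the last `t` coordinates. -/
def idx (t J : ℕ) : Finset (Fin t → ℕ) := Fintype.piFinset (fun _ => range (J + 1))

lemma mem_idx {t J : ℕ} {j : Fin t → ℕ} : j ∈ idx t J ↔ ∀ i, j i ≤ J := by
  unfold idx
  simp only [Fintype.mem_piFinset, mem_range]
  exact forall_congr' fun i => Nat.lt_succ_iff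

lemma idx_sum_le {t J : ℕ} {j : Fin t → ℕ} (hj : j ∈ idx t J) : ∑ i, j i ≤ t * J := by
  rw [mem_idx] at hj
  calc ∑ i, j i ≤ ∑ _i : Fin t, J := Finset.sum_le_sum fun i _ => hj i
    _ = t * J := by simp

/-- The window widths. -/
def win (J : ℕ) (j : Fin t → ℕ) : Option (Fin t) → ℕ :=
  fun o => o.elim (2 ^ ((t * J - ∑ i, j i) + 1)) (fun i => 2 ^ (j i + 1))

/-- The total bound. -/
noncomputable def BB (J : ℕ) (G : Fin t → (ZMod N)ˣ) : ℝ :=
  ∑ j ∈ idx t J, (∑ j0 ∈ (range (J + 1)).filter (fun j0 => t * J < j0 + ∑ i, j i), EE (jj j0 j) G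
    + 2 ^ (t + 1) * (1 + RR (win J j) G) + 2 * 4 ^ (t + 1))

lemma card_val_lt (L : ℕ) (hL : L ≤ N) :
    ∑ x : ZMod N, (if x.val < L then (1 : ℝ) else 0) = L := by
  classical
  rw [← Finset.sum_filter, Finset.sum_const, nsmul_eq_mul, mul_one]
  congr 1
  conv_rhs => rw [← card_range L]
  apply Finset.card_bij (fun (x : ZMod N) _ => x.val)
  · intro x hx
    simp only [mem_filter, mem_univ, true_and] at hx
    exact mem_range.mpr hx
  · intro x _ y _ hxy
    exact ZMod.val_injective N hxy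
  · intro n hn
    rw [mem_range] at hn
    refine ⟨((n : ℕ) : ZMod N), ?_, ZMod.val_cast_of_lt (by omega)⟩
    simp only [mem_filter, mem_univ, true_and]
    rw [ZMod.val_cast_of_lt (by omega)]
    exact hn

theorem count_bound (J : ℕ) (hJ : N < 2 ^ (J + 1)) (hJ' : 2 ^ J ≤ N) (G : Fin t → (ZMod N)ˣ)
    (L : Option (Fin t) → ℕ) (hL : ∀ o, L o ≤ N) (y : Option (Fin t) → ZMod N) :
    |∑ m : ZMod N, ∏ o, (if (m * av G o + y o).val < L o then (1 : ℝ) else 0)
      - N * ∏ o, ((L o : ℝ) / N)| ≤ BB J G := by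
  classical
  have hN0 : (0 : ℝ) < N := by
    exact_mod_cast (Fact.out : N.Prime).pos
  have hLJ : ∀ o, L o < 2 ^ (J + 1) := fun o => lt_of_le_of_lt (hL o) hJ
  -- the pieces
  set Ψ : ℕ → (Fin t → ℕ) → ZMod N → ℝ := fun j0 j m =>
    ∏ o, psi (L o) (jj j0 j o) (m * av G o + y o).val with hΨ
  set M : ℕ → (Fin t → ℕ) → ℝ := fun j0 j =>
    N * ∏ o, ((∑ x : ZMod N, psi (L o) (jj j0 j o) x.val) / N) with hM
  have hΨ0 : ∀ j0 j m, 0 ≤ Ψ j0 j m := fun j0 j m =>
    Finset.prod_nonneg fun o _ => psi_nonneg _ _ _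
  have hM0 : ∀ j0 j, 0 ≤ M j0 j := fun j0 j =>
    mul_nonneg hN0.le (Finset.prod_nonneg fun o _ => div_nonneg (psi_sum_nonneg _ _) hN0.le)
  -- decomposition of indicator
  have hdec : ∀ m : ZMod N, ∏ o, (if (m * av G o + y o).val < L o then (1 : ℝ) else 0)
      = ∑ j ∈ idx t J, ∑ j0 ∈ range (J + 1), Ψ j0 j m := by
    intro m
    have h1 : ∏ o, (if (m * av G o + y o).val < L o then (1 : ℝ) else 0)
        = ∏ o, ∑ j ∈ range (J + 1), psi (L o) j (m * av G o + y o).val :=
      Finset.prod_congr rfl fun o _ => (sum_psi _ (hLJ o)).symm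
    rw [h1, Fintype.prod_option, Finset.prod_univ_sum, Finset.sum_mul_sum, Finset.sum_comm]
    refine Finset.sum_congr rfl fun j _ => Finset.sum_congr rfl fun j0 _ => ?_
    rw [hΨ]
    simp only
    rw [Fintype.prod_option]
    rfl
  have hMdec : N * ∏ o, ((L o : ℝ) / N) = ∑ j ∈ idx t J, ∑ j0 ∈ range (J + 1), M j0 j := by
    have h1 : ∀ o, ((L o : ℝ) / N) = ∑ j ∈ range (J + 1), (∑ x : ZMod N, psi (L o) j x.val) / N := by
      intro o
      rw [← card_val_lt (L o) (hL o), ← Finset.sum_div, Finset.sum_comm]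
      congr 1
      exact Finset.sum_congr rfl fun x _ => (sum_psi _ (hLJ o)).symm
    have h2 : ∏ o, ((L o : ℝ) / N) = ∏ o, ∑ j ∈ range (J + 1), (∑ x : ZMod N, psi (L o) j x.val) / N :=
      Finset.prod_congr rfl fun o _ => h1 o
    rw [h2, Fintype.prod_option, Finset.prod_univ_sum, Finset.sum_mul_sum, Finset.sum_comm,
      Finset.mul_sum]
    refine Finset.sum_congr rfl fun j _ => ?_
    rw [Finset.mul_sum]
    refine Finset.sum_congr rfl fun j0 _ => ?_
    rw [hM]
    simp only
    rw [Fintype.prod_option]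
    rfl
  -- the sets
  set small : (Fin t → ℕ) → Finset ℕ := fun j =>
    (range (J + 1)).filter (fun j0 => ¬ (t * J < j0 + ∑ i, j i)) with hsmall
  set large : (Fin t → ℕ) → Finset ℕ := fun j =>
    (range (J + 1)).filter (fun j0 => t * J < j0 + ∑ i, j i) with hlarge
  have hsplit : ∀ (F : ℕ → ℝ) (j : Fin t → ℕ), ∑ j0 ∈ range (J + 1), F j0
      = ∑ j0 ∈ large j, F j0 + ∑ j0 ∈ small j, F j0 := by
    intro F j
    exact (Finset.sum_filter_add_sum_filter_not _ _ _).symm
  -- large terms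
  have hbig : ∀ j0 j, |∑ m : ZMod N, Ψ j0 j m - M j0 j| ≤ EE (jj j0 j) G := by
    intro j0 j
    have h1 := fourier_error (N := N) (av G) y (fun o x => psi (L o) (jj j0 j o) x.val)
    refine h1.trans ?_
    unfold EE
    refine mul_le_mul_of_nonneg_left (Finset.sum_le_sum fun h _ => ?_) hN0.le
    refine Finset.prod_le_prod (fun o _ => by positivity) fun o _ => ?_
    refine div_le_div_of_nonneg_right (ft_psi_bound _ (hL o) _) hN0.le
  -- small terms: actual counts
  have hsm1 : ∑ j ∈ idx t J, ∑ j0 ∈ small j, ∑ m : ZMod N, Ψ j0 j m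
      ≤ ∑ j ∈ idx t J, 2 ^ (t + 1) * (1 + RR (win J j) G) := by
    have h1 : ∀ m : ZMod N, ∑ j ∈ idx t J, ∑ j0 ∈ small j, Ψ j0 j m
        ≤ ∑ j ∈ idx t J, if m ∈ winSet (win J j) L G y then (1 : ℝ) else 0 := by
      intro m
      by_cases h0 : ∑ j ∈ idx t J, ∑ j0 ∈ small j, Ψ j0 j m = 0
      · rw [h0]
        exact Finset.sum_nonneg fun j _ => by split_ifs <;> norm_num
      · obtain ⟨j, hj, hj2⟩ := Finset.exists_ne_zero_of_sum_ne_zero h0
        obtain ⟨j0, hj0, hj3⟩ := Finset.exists_ne_zero_of_sum_ne_zero hj2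
        have h2 : m ∈ winSet (win J j) L G y := by
          unfold winSet
          simp only [mem_filter, mem_univ, true_and]
          intro o
          have h3 : psi (L o) (jj j0 j o) (m * av G o + y o).val ≠ 0 := by
            intro h4
            exact hj3 (Finset.prod_eq_zero (mem_univ o) h4)
          obtain ⟨h4, h5⟩ := psi_support h3
          refine ⟨h4, ?_⟩
          have h6 : 2 ^ (jj j0 j o + 1) ≤ win J j o := by
            cases o with
            | none =>
              simp only [hsmall, mem_filter] at hj0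
              unfold win
              simp only [Option.elim_none, jj_none]
              apply Nat.pow_le_pow_right (by norm_num)
              omega
            | some i => exact le_rfl
          rcases h5 with h5 | h5
          · left; omega
          · right; omega
        have h3 : ∑ j ∈ idx t J, ∑ j0 ∈ small j, Ψ j0 j m ≤ 1 := by
          calc ∑ j ∈ idx t J, ∑ j0 ∈ small j, Ψ j0 j m
              ≤ ∑ j ∈ idx t J, ∑ j0 ∈ range (J + 1), Ψ j0 j m := by
                refine Finset.sum_le_sum fun j _ => ?_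
                exact Finset.sum_le_sum_of_subset_of_nonneg (Finset.filter_subset _ _)
                  fun j0 _ _ => hΨ0 _ _ _
            _ = ∏ o, (if (m * av G o + y o).val < L o then (1 : ℝ) else 0) := (hdec m).symm
            _ ≤ 1 := by
                refine Finset.prod_le_one (fun o _ => by split_ifs <;> norm_num)
                  (fun o _ => by split_ifs <;> norm_num)
        refine h3.trans ?_
        have h4 := Finset.single_le_sum
          (f := fun j => if m ∈ winSet (win J j) L G y then (1 : ℝ) else 0) (s := idx t J)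
          (fun j _ => by
            show (0 : ℝ) ≤ if m ∈ winSet (win J j) L G y then (1 : ℝ) else 0
            split_ifs <;> norm_num) hj
        rwa [if_pos h2] at h4
    calc ∑ j ∈ idx t J, ∑ j0 ∈ small j, ∑ m : ZMod N, Ψ j0 j m
        = ∑ m : ZMod N, ∑ j ∈ idx t J, ∑ j0 ∈ small j, Ψ j0 j m := by
          rw [Finset.sum_comm]
          refine Finset.sum_congr rfl fun j _ => ?_
          rw [Finset.sum_comm]
      _ ≤ ∑ m : ZMod N, ∑ j ∈ idx t J, (if m ∈ winSet (win J j) L G y then (1 : ℝ) else 0) :=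
          Finset.sum_le_sum fun m _ => h1 m
      _ = ∑ j ∈ idx t J, ((winSet (win J j) L G y).card : ℝ) := by
          rw [Finset.sum_comm]
          refine Finset.sum_congr rfl fun j _ => ?_
          simp
      _ ≤ _ := Finset.sum_le_sum fun j _ => winSet_card _ _ _ _
  -- small terms: main terms
  have hsm2 : ∀ j ∈ idx t J, ∑ j0 ∈ small j, M j0 j ≤ 2 * 4 ^ (t + 1) := by
    intro j hj
    have hsum := idx_sum_le hj
    have h1 : ∀ j0 ∈ small j, M j0 j ≤ (4 ^ (t + 1) * 2 ^ (∑ i, j i) / (N : ℝ) ^ t) * 2 ^ j0 := by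
      intro j0 _
      rw [hM]
      simp only
      have h2 : ∏ o, ((∑ x : ZMod N, psi (L o) (jj j0 j o) x.val) / N)
          ≤ ∏ o, (4 * 2 ^ (jj j0 j o) / (N : ℝ)) := by
        refine Finset.prod_le_prod (fun o _ => div_nonneg (psi_sum_nonneg _ _) hN0.le)
          fun o _ => div_le_div_of_nonneg_right (psi_sum_le _ (hL o)) hN0.le
      refine (mul_le_mul_of_nonneg_left h2 hN0.le).trans (le_of_eq ?_)
      rw [Finset.prod_div_distrib, Finset.prod_mul_distrib, Finset.prod_pow_eq_pow_sum,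
        Fintype.sum_option]
      simp only [prod_const, Finset.card_univ, Fintype.card_option, Fintype.card_fin, jj_none,
        jj_some]
      rw [pow_add, pow_succ (N : ℝ) t]
      field_simp
      ring
    refine (Finset.sum_le_sum h1).trans ?_
    rw [← Finset.mul_sum]
    have h3 : ∑ j0 ∈ small j, (2 : ℝ) ^ j0 ≤ 2 ^ (t * J - ∑ i, j i + 1) := by
      calc ∑ j0 ∈ small j, (2 : ℝ) ^ j0
          ≤ ∑ j0 ∈ range (t * J - ∑ i, j i + 1), (2 : ℝ) ^ j0 := by
            refine Finset.sum_le_sum_of_subset_of_nonneg ?_ fun _ _ _ => by positivity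
            intro j0 hj0
            simp only [hsmall, mem_filter] at hj0
            rw [mem_range]
            omega
        _ = 2 ^ (t * J - ∑ i, j i + 1) - 1 := by
            rw [geom_sum_eq (by norm_num)]
            norm_num
        _ ≤ 2 ^ (t * J - ∑ i, j i + 1) := by linarith
    have h4 : (2 : ℝ) ^ (∑ i, j i) * 2 ^ (t * J - ∑ i, j i + 1) ≤ 2 * (N : ℝ) ^ t := by
      rw [← pow_add]
      have e : ∑ i, j i + (t * J - ∑ i, j i + 1) = J * t + 1 := by
        rw [mul_comm J t]; omega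
      rw [e, pow_succ, pow_mul]
      have : ((2 : ℝ) ^ J) ^ t ≤ (N : ℝ) ^ t := by
        refine pow_le_pow_left₀ (by positivity) ?_ t
        exact_mod_cast hJ'
      linarith
    calc (4 ^ (t + 1) * 2 ^ (∑ i, j i) / (N : ℝ) ^ t) * ∑ j0 ∈ small j, (2 : ℝ) ^ j0
        ≤ (4 ^ (t + 1) * 2 ^ (∑ i, j i) / (N : ℝ) ^ t) * 2 ^ (t * J - ∑ i, j i + 1) := by
          refine mul_le_mul_of_nonneg_left h3 (by positivity)
      _ = 4 ^ (t + 1) * ((2 : ℝ) ^ (∑ i, j i) * 2 ^ (t * J - ∑ i, j i + 1)) / (N : ℝ) ^ t := by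
          ring
      _ ≤ 4 ^ (t + 1) * (2 * (N : ℝ) ^ t) / (N : ℝ) ^ t := by gcongr
      _ = 2 * 4 ^ (t + 1) := by field_simp
  -- assemble
  have hkey : ∑ m : ZMod N, ∏ o, (if (m * av G o + y o).val < L o then (1 : ℝ) else 0)
      - N * ∏ o, ((L o : ℝ) / N)
      = ∑ j ∈ idx t J, ∑ j0 ∈ large j, (∑ m : ZMod N, Ψ j0 j m - M j0 j)
        + ∑ j ∈ idx t J, ∑ j0 ∈ small j, ∑ m : ZMod N, Ψ j0 j m
        - ∑ j ∈ idx t J, ∑ j0 ∈ small j, M j0 j := by
    have h1 : ∑ m : ZMod N, ∏ o, (if (m * av G o + y o).val < L o then (1 : ℝ) else 0)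
        = ∑ j ∈ idx t J, ∑ j0 ∈ range (J + 1), ∑ m : ZMod N, Ψ j0 j m := by
      simp_rw [hdec]
      rw [Finset.sum_comm]
      refine Finset.sum_congr rfl fun j _ => ?_
      rw [Finset.sum_comm]
    rw [h1, hMdec, ← Finset.sum_sub_distrib]
    have h2 : ∀ j, ∑ j0 ∈ range (J + 1), ∑ m : ZMod N, Ψ j0 j m - ∑ j0 ∈ range (J + 1), M j0 j
        = ∑ j0 ∈ large j, (∑ m : ZMod N, Ψ j0 j m - M j0 j)
          + ∑ j0 ∈ small j, ∑ m : ZMod N, Ψ j0 j m - ∑ j0 ∈ small j, M j0 j := by
      intro j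
      rw [hsplit (fun j0 => ∑ m : ZMod N, Ψ j0 j m) j, hsplit (fun j0 => M j0 j) j,
        Finset.sum_sub_distrib]
      ring
    simp_rw [h2]
    rw [Finset.sum_sub_distrib, Finset.sum_add_distrib]
  rw [hkey]
  have hA : |∑ j ∈ idx t J, ∑ j0 ∈ large j, (∑ m : ZMod N, Ψ j0 j m - M j0 j)|
      ≤ ∑ j ∈ idx t J, ∑ j0 ∈ large j, EE (jj j0 j) G := by
    refine (Finset.abs_sum_le_sum_abs _ _).trans (Finset.sum_le_sum fun j _ => ?_)
    exact (Finset.abs_sum_le_sum_abs _ _).trans (Finset.sum_le_sum fun j0 _ => hbig j0 j)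
  have hB0 : 0 ≤ ∑ j ∈ idx t J, ∑ j0 ∈ small j, ∑ m : ZMod N, Ψ j0 j m :=
    Finset.sum_nonneg fun j _ => Finset.sum_nonneg fun j0 _ => Finset.sum_nonneg fun m _ =>
      hΨ0 _ _ _
  have hC0 : 0 ≤ ∑ j ∈ idx t J, ∑ j0 ∈ small j, M j0 j :=
    Finset.sum_nonneg fun j _ => Finset.sum_nonneg fun j0 _ => hM0 _ _
  have hC : ∑ j ∈ idx t J, ∑ j0 ∈ small j, M j0 j ≤ ∑ j ∈ idx t J, (2 * 4 ^ (t + 1) : ℝ) :=
    Finset.sum_le_sum hsm2
  have hBB : BB J G = ∑ j ∈ idx t J, ∑ j0 ∈ large j, EE (jj j0 j) G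
      + ∑ j ∈ idx t J, 2 ^ (t + 1) * (1 + RR (win J j) G)
      + ∑ j ∈ idx t J, (2 * 4 ^ (t + 1) : ℝ) := by
    unfold BB
    rw [Finset.sum_add_distrib, Finset.sum_add_distrib]
  rw [hBB]
  rw [abs_le] at hA ⊢
  constructor
  · linarith [hA.1]
  · linarith [hA.2]

end

end Pool.Agent.Helper3.Halton
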