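import Mathlib

/-!
# Fourier identity for counting along a line in `(ZMod N)^ι`
-/

open Finset

namespace Pool.Agent.Helper3.Halton

/-- Fourier coefficient of a real function on `ZMod N`. -/
noncomputable def ft {N : ℕ} [NeZero N] (f : ZMod N → ℝ) (h : ZMod N) : ℂ :=
  ∑ x : ZMod N, (f x : ℂ) * ZMod.stdAddChar (-(h * x))

lemma addChar_sum {R : Type*} [AddCommMonoid R] {M : Type*} [CommMonoid M] (ψ : AddChar R M)
    {ι : Type*} (s : Finset ι) (f : ι → R) : ψ (∑ i ∈ s, f i) = ∏ i ∈ s, ψ (f i) := by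
  classical
  induction s using Finset.induction_on with
  | empty => simp
  | insert a s ha ih => rw [Finset.sum_insert ha, Finset.prod_insert ha, AddChar.map_add_eq_mul, ih]

section
variable {N : ℕ} [NeZero N]

lemma ft_inv (f : ZMod N → ℝ) (x : ZMod N) :
    (f x : ℂ) = (1 / (N : ℂ)) * ∑ h : ZMod N, ft f h * ZMod.stdAddChar (h * x) := by
  have hN : (N : ℂ) ≠ 0 := Nat.cast_ne_zero.mpr (NeZero.ne N)
  have h1 : ∑ h : ZMod N, ft f h * ZMod.stdAddChar (h * x)
      = ∑ y : ZMod N, (f y : ℂ) * ∑ h : ZMod N, ZMod.stdAddChar (h * (x - y)) := by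
    unfold ft
    simp_rw [Finset.sum_mul, Finset.mul_sum]
    rw [Finset.sum_comm]
    refine Finset.sum_congr rfl fun y _ => Finset.sum_congr rfl fun h _ => ?_
    rw [mul_assoc, ← AddChar.map_add_eq_mul]
    congr 2
    ring
  rw [h1]
  simp_rw [AddChar.sum_mulShift _ (ZMod.isPrimitive_stdAddChar N)]
  have h2 : ∀ y : ZMod N, (f y : ℂ) * ((if x - y = 0 then Fintype.card (ZMod N) else 0 : ℕ) : ℂ)
      = if y = x then (f x : ℂ) * N else 0 := by
    intro y
    by_cases h : y = x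
    · subst h; simp [ZMod.card]
    · have : x - y ≠ 0 := fun h' => h (sub_eq_zero.mp h').symm
      simp [h, this]
  simp_rw [h2]
  rw [Finset.sum_ite_eq' univ x]
  simp only [mem_univ, if_true]
  field_simp

lemma ft_zero (f : ZMod N → ℝ) : ft f 0 = ((∑ x, f x : ℝ) : ℂ) := by
  unfold ft
  simp

variable {ι : Type*} [Fintype ι] [DecidableEq ι]

lemma fourier_identity (a y : ι → ZMod N) (f : ι → ZMod N → ℝ) :
    ((∑ m : ZMod N, ∏ i, f i (m * a i + y i) : ℝ) : ℂ)
      = (N : ℂ) * ∑ h ∈ univ.filter (fun h : ι → ZMod N => ∑ i, h i * a i = 0),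
          ∏ i, (ft (f i) (h i) * ZMod.stdAddChar (h i * y i) / N) := by
  push_cast
  have h1 : ∀ m : ZMod N, ∏ i, ((f i (m * a i + y i) : ℝ) : ℂ)
      = ∑ h : ι → ZMod N, (∏ i, (ft (f i) (h i) * ZMod.stdAddChar (h i * y i) / N)) *
          ZMod.stdAddChar (m * ∑ i, h i * a i) := by
    intro m
    have h2 : ∀ i, ((f i (m * a i + y i) : ℝ) : ℂ)
        = ∑ h : ZMod N, (ft (f i) h * ZMod.stdAddChar (h * y i) / N) *
            ZMod.stdAddChar (m * (h * a i)) := by
      intro i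
      rw [ft_inv, Finset.mul_sum]
      refine Finset.sum_congr rfl fun h _ => ?_
      have : h * (m * a i + y i) = h * y i + m * (h * a i) := by ring
      rw [this, AddChar.map_add_eq_mul]
      ring
    simp_rw [h2]
    rw [Finset.prod_univ_sum]
    rw [Fintype.piFinset_univ]
    refine Finset.sum_congr rfl fun h _ => ?_
    rw [Finset.prod_mul_distrib]
    congr 1
    rw [Finset.mul_sum]
    exact (addChar_sum _ _ _).symm
  simp_rw [h1]
  rw [Finset.sum_comm]
  simp_rw [← Finset.mul_sum]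
  have h3 : ∀ c : ZMod N, ∑ m : ZMod N, (ZMod.stdAddChar (m * c) : ℂ)
      = if c = 0 then (N : ℂ) else 0 := by
    intro c
    rw [AddChar.sum_mulShift _ (ZMod.isPrimitive_stdAddChar N)]
    split_ifs <;> simp [ZMod.card]
  simp_rw [h3]
  rw [Finset.mul_sum, Finset.sum_filter]
  refine Finset.sum_congr rfl fun h _ => ?_
  split_ifs <;> ring

theorem fourier_error (a y : ι → ZMod N) (f : ι → ZMod N → ℝ) :
    |∑ m : ZMod N, ∏ i, f i (m * a i + y i) - (N : ℝ) * ∏ i, ((∑ x, f i x) / N)|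
      ≤ (N : ℝ) * ∑ h ∈ univ.filter (fun h : ι → ZMod N => h ≠ 0 ∧ ∑ i, h i * a i = 0),
          ∏ i, (‖ft (f i) (h i)‖ / N) := by
  have h0 : ((∑ m : ZMod N, ∏ i, f i (m * a i + y i) - (N : ℝ) * ∏ i, ((∑ x, f i x) / N) : ℝ) : ℂ)
      = (N : ℂ) * ∑ h ∈ univ.filter (fun h : ι → ZMod N => h ≠ 0 ∧ ∑ i, h i * a i = 0),
          ∏ i, (ft (f i) (h i) * ZMod.stdAddChar (h i * y i) / N) := by
    rw [Complex.ofReal_sub, fourier_identity]
    have h1 : univ.filter (fun h : ι → ZMod N => ∑ i, h i * a i = 0)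
        = insert 0 (univ.filter (fun h : ι → ZMod N => h ≠ 0 ∧ ∑ i, h i * a i = 0)) := by
      ext h
      simp only [mem_filter, mem_univ, true_and, mem_insert]
      constructor
      · intro hh
        by_cases h' : h = 0
        · exact Or.inl h'
        · exact Or.inr ⟨h', hh⟩
      · rintro (rfl | hh)
        · simp
        · exact hh.2
    rw [h1, Finset.sum_insert (by simp)]
    rw [mul_add]
    have h2 : ∏ i, (ft (f i) ((0 : ι → ZMod N) i) * ZMod.stdAddChar ((0 : ι → ZMod N) i * y i) / N)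
        = ((∏ i, ((∑ x, f i x) / N) : ℝ) : ℂ) := by
      push_cast
      refine Finset.prod_congr rfl fun i _ => ?_
      rw [Pi.zero_apply, ft_zero]
      simp
    rw [h2]
    push_cast
    ring
  have h1 : |∑ m : ZMod N, ∏ i, f i (m * a i + y i) - (N : ℝ) * ∏ i, ((∑ x, f i x) / N)|
      = ‖((∑ m : ZMod N, ∏ i, f i (m * a i + y i) - (N : ℝ) * ∏ i, ((∑ x, f i x) / N) : ℝ) : ℂ)‖ := by
    rw [Complex.norm_real, Real.norm_eq_abs]
  rw [h1, h0, norm_mul, Complex.norm_natCast]
  refine mul_le_mul_of_nonneg_left ?_ (Nat.cast_nonneg N)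
  refine (norm_sum_le _ _).trans (Finset.sum_le_sum fun h _ => ?_)
  rw [norm_prod]
  refine le_of_eq (Finset.prod_congr rfl fun i _ => ?_)
  rw [norm_div, norm_mul, Complex.norm_natCast]
  have : ‖(ZMod.stdAddChar (h i * y i) : ℂ)‖ = 1 := AddChar.norm_apply _ _
  rw [this, mul_one]

end

end Pool.Agent.Helper3.Halton
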