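import Pool.Agent.Helper3.Halton.Count

/-!
# The mean of the bound over good generating vectors
-/

open Finset

namespace Pool.Agent.Helper3.Halton

lemma geom_trunc (Q n : ℕ) :
    ∑ q ∈ range n, ((3 : ℝ) / 4) ^ (q - Q) = min n Q + 4 - 4 * (3 / 4) ^ (n - Q) := by
  induction n with
  | zero => simp
  | succ n ih =>
    rw [Finset.sum_range_succ, ih]
    rcases Nat.lt_or_ge n Q with h | h
    · have h1 : n - Q = 0 := by omega
      have h2 : n + 1 - Q = 0 := by omega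
      have h3 : min n Q = n := by omega
      have h4 : min (n + 1) Q = n + 1 := by omega
      rw [h1, h2, h3, h4]
      push_cast; ring
    · have h2 : n + 1 - Q = (n - Q) + 1 := by omega
      have h3 : min n Q = Q := by omega
      have h4 : min (n + 1) Q = Q := by omega
      rw [h2, h3, h4, pow_succ]
      ring

section
variable {N : ℕ} [Fact N.Prime] {t : ℕ}

lemma RR_nonneg (W : Option (Fin t) → ℕ) (G : Fin t → (ZMod N)ˣ) : 0 ≤ RR W G :=
  Nat.cast_nonneg _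

lemma BB_nonneg (J : ℕ) (G : Fin t → (ZMod N)ˣ) : 0 ≤ BB J G := by
  unfold BB
  refine Finset.sum_nonneg fun j _ => ?_
  have h1 : 0 ≤ ∑ j0 ∈ (range (J + 1)).filter (fun j0 => t * J < j0 + ∑ i, j i), EE (jj j0 j) G :=
    Finset.sum_nonneg fun j0 _ => EE_nonneg _ _
  have h2 := RR_nonneg (win J j) G
  positivity

lemma card_G : (Fintype.card (Fin t → (ZMod N)ˣ) : ℝ) = ((N : ℝ) - 1) ^ t := by
  rw [Fintype.card_fun, card_units, Fintype.card_fin]
  push_cast
  rw [Nat.cast_sub (Fact.out : N.Prime).one_le]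
  simp

lemma pow_le_card : (N : ℝ) ^ t ≤ 2 ^ t * Fintype.card (Fin t → (ZMod N)ˣ) := by
  rw [card_G, ← mul_pow]
  have hN : (2 : ℝ) ≤ N := by exact_mod_cast (Fact.out : N.Prime).two_le
  exact pow_le_pow_left₀ (by linarith) (by linarith) t

lemma sum_RR_win_le {J : ℕ} (hJ' : 2 ^ J ≤ N) (j : Fin t → ℕ) (hj : j ∈ idx t J) :
    ∑ G : Fin t → (ZMod N)ˣ, RR (win J j) G
      ≤ 8 ^ (t + 1) * Fintype.card (Fin t → (ZMod N)ˣ) := by
  refine (sum_RR_le _).trans ?_
  rw [Fintype.prod_option]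
  unfold win
  simp only [Option.elim_none, Option.elim_some]
  push_cast
  rw [Finset.prod_mul_distrib, Finset.prod_pow_eq_pow_sum]
  simp only [prod_const, Finset.card_univ, Fintype.card_fin]
  have h1 : ∑ i : Fin t, (j i + 1) = ∑ i, j i + t := by
    rw [Finset.sum_add_distrib]; simp
  rw [h1]
  have hsum := idx_sum_le hj
  have h2 : (2 : ℝ) * 2 ^ (t * J - ∑ i, j i + 1) * (2 ^ t * 2 ^ (∑ i, j i + t))
      = 4 ^ (t + 1) * (2 ^ J) ^ t := by
    have h4 : (4 : ℝ) = 2 ^ 2 := by norm_num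
    rw [h4, ← pow_mul, ← pow_mul, ← pow_add, ← pow_add]
    have : (2 : ℝ) * 2 ^ (t * J - ∑ i, j i + 1) = 2 ^ (t * J - ∑ i, j i + 1 + 1) := by
      rw [pow_succ (2 : ℝ) (t * J - ∑ i, j i + 1)]; ring
    rw [this, ← pow_add]
    congr 1
    rw [mul_comm J t]
    omega
  rw [h2]
  have h3 : ((2 : ℝ) ^ J) ^ t ≤ (N : ℝ) ^ t := by
    refine pow_le_pow_left₀ (by positivity) ?_ t
    exact_mod_cast hJ'
  have h5 : (0 : ℝ) ≤ Fintype.card (Fin t → (ZMod N)ˣ) := Nat.cast_nonneg _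
  have h6 : (2 : ℝ) ^ t ≤ 2 ^ (t + 1) := pow_le_pow_right₀ (by norm_num) (by omega)
  calc (4 : ℝ) ^ (t + 1) * (2 ^ J) ^ t ≤ 4 ^ (t + 1) * (N : ℝ) ^ t := by gcongr
    _ ≤ 4 ^ (t + 1) * (2 ^ t * Fintype.card (Fin t → (ZMod N)ˣ)) := by
        gcongr; exact pow_le_card
    _ ≤ 4 ^ (t + 1) * (2 ^ (t + 1) * Fintype.card (Fin t → (ZMod N)ˣ)) := by gcongr
    _ = 8 ^ (t + 1) * Fintype.card (Fin t → (ZMod N)ˣ) := by
        rw [← mul_assoc, ← mul_pow]; norm_num

lemma sum_EE_good_le' {J Q : ℕ} (hJ : N < 2 ^ (J + 1)) (hJ' : 2 ^ J ≤ N)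
    (A : Finset (Fin t → (ZMod N)ˣ)) (hA : ∀ G ∈ A, Good ((N : ℝ) / 2 ^ Q) G)
    (j0 : ℕ) (hj0 : j0 ≤ J) (j : Fin t → ℕ) (hj : j ∈ idx t J) (hq : t * J < j0 + ∑ i, j i) :
    ∑ G ∈ A, EE (jj j0 j) G ≤ 2 * 40 ^ (t + 1) * (3 / 4) ^ (j0 + ∑ i, j i - t * J - Q) *
      Fintype.card (Fin t → (ZMod N)ˣ) := by
  have hN0 : (0 : ℝ) < N := by
    exact_mod_cast (Fact.out : N.Prime).pos
  have hc0 : (0 : ℝ) ≤ Fintype.card (Fin t → (ZMod N)ˣ) := Nat.cast_nonneg _
  have hpow : ∀ o, 2 ^ (jj j0 j o) ≤ N := by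
    intro o
    refine le_trans (Nat.pow_le_pow_right (by norm_num) ?_) hJ'
    cases o with
    | none => exact hj0
    | some i => exact (mem_idx.mp hj) i
  set q := j0 + ∑ i, j i - t * J with hqdef
  rcases Nat.le_total q Q with h | h
  · have h1 : q - Q = 0 := by omega
    rw [h1, pow_zero, mul_one]
    refine (sum_EE_le A _ hpow).trans ?_
    gcongr
    norm_num
  · refine (sum_EE_good_le (Z := (N : ℝ) / 2 ^ Q) (by positivity) A hA _ hpow).trans ?_
    have h1 : ∏ o, ((N : ℝ) / 2 ^ (jj j0 j o)) = (N : ℝ) ^ (t + 1) / 2 ^ (j0 + ∑ i, j i) := by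
      rw [Finset.prod_div_distrib, Finset.prod_pow_eq_pow_sum, Fintype.sum_option]
      simp
    have h2 : (∏ o, ((N : ℝ) / 2 ^ (jj j0 j o))) / ((N : ℝ) / 2 ^ Q)
        ≤ (2 ^ t * (3 / 4) ^ (q - Q)) ^ 2 := by
      rw [h1]
      have e1 : (N : ℝ) ^ (t + 1) / 2 ^ (j0 + ∑ i, j i) / ((N : ℝ) / 2 ^ Q)
          = (N : ℝ) ^ t * 2 ^ Q / 2 ^ (j0 + ∑ i, j i) := by
        rw [pow_succ (N : ℝ) t]
        field_simp
      rw [e1, div_le_iff₀ (by positivity)]
      have e2 : (N : ℝ) ^ t ≤ 2 ^ (J * t) * 2 ^ t := by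
        rw [pow_mul, ← mul_pow]
        refine pow_le_pow_left₀ hN0.le ?_ t
        have : (N : ℝ) ≤ 2 ^ (J + 1) := by exact_mod_cast hJ.le
        rw [pow_succ] at this
        exact this
      have e3 : (2 : ℝ) ^ (j0 + ∑ i, j i) = 2 ^ (J * t) * (2 ^ Q * 2 ^ (q - Q)) := by
        rw [← pow_add, ← pow_add]
        congr 1
        rw [mul_comm J t]
        omega
      have e4 : (2 : ℝ) ^ t * (2 ^ (J * t) * 2 ^ Q) ≤ (2 ^ t * (3 / 4) ^ (q - Q)) ^ 2 *
          (2 ^ (J * t) * (2 ^ Q * 2 ^ (q - Q))) := by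
        have e5 : (1 : ℝ) ≤ (9 / 8) ^ (q - Q) := one_le_pow₀ (by norm_num)
        have e6 : (1 : ℝ) ≤ 2 ^ t := one_le_pow₀ (by norm_num)
        have e7 : (2 ^ t * (3 / 4) ^ (q - Q)) ^ 2 * (2 ^ (J * t) * (2 ^ Q * 2 ^ (q - Q)))
            = (2 : ℝ) ^ t * (2 ^ (J * t) * 2 ^ Q) * (2 ^ t * (9 / 8) ^ (q - Q)) := by
          have : ((9 : ℝ) / 8) ^ (q - Q) = ((3 / 4) ^ (q - Q)) ^ 2 * 2 ^ (q - Q) := by
            rw [← pow_mul, mul_comm (q - Q) 2, pow_mul, ← mul_pow]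
            norm_num
          rw [this]; ring
        rw [e7]
        have e8 : (0 : ℝ) ≤ (2 : ℝ) ^ t * (2 ^ (J * t) * 2 ^ Q) := by positivity
        have e9 : (1 : ℝ) ≤ 2 ^ t * (9 / 8) ^ (q - Q) := by nlinarith
        nlinarith
      rw [e3]
      calc (N : ℝ) ^ t * 2 ^ Q ≤ (2 ^ (J * t) * 2 ^ t) * 2 ^ Q := by gcongr
        _ = (2 : ℝ) ^ t * (2 ^ (J * t) * 2 ^ Q) := by ring
        _ ≤ _ := e4
    have h3 : Real.sqrt ((∏ o, ((N : ℝ) / 2 ^ (jj j0 j o))) / ((N : ℝ) / 2 ^ Q))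
        ≤ 2 ^ t * (3 / 4) ^ (q - Q) := by
      rw [← Real.sqrt_sq (show (0 : ℝ) ≤ 2 ^ t * (3 / 4) ^ (q - Q) by positivity)]
      exact Real.sqrt_le_sqrt h2
    calc 2 * 20 ^ (t + 1) * Real.sqrt ((∏ o, ((N : ℝ) / 2 ^ (jj j0 j o))) / ((N : ℝ) / 2 ^ Q)) *
          Fintype.card (Fin t → (ZMod N)ˣ)
        ≤ 2 * 20 ^ (t + 1) * (2 ^ t * (3 / 4) ^ (q - Q)) *
          Fintype.card (Fin t → (ZMod N)ˣ) := by gcongr
      _ ≤ 2 * 20 ^ (t + 1) * (2 ^ (t + 1) * (3 / 4) ^ (q - Q)) *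
          Fintype.card (Fin t → (ZMod N)ˣ) := by
          gcongr
          · norm_num
          · omega
      _ = 2 * 40 ^ (t + 1) * (3 / 4) ^ (q - Q) * Fintype.card (Fin t → (ZMod N)ˣ) := by
          have : (40 : ℝ) ^ (t + 1) = 20 ^ (t + 1) * 2 ^ (t + 1) := by
            rw [← mul_pow]; norm_num
          rw [this]; ring

theorem sum_BB_good_le {J Q : ℕ} (hJ : N < 2 ^ (J + 1)) (hJ' : 2 ^ J ≤ N)
    (A : Finset (Fin t → (ZMod N)ˣ)) (hA : ∀ G ∈ A, Good ((N : ℝ) / 2 ^ Q) G) :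
    ∑ G ∈ A, BB J G ≤ 12 * 40 ^ (t + 1) * (Q + 1) * (J + 1) ^ t *
      Fintype.card (Fin t → (ZMod N)ˣ) := by
  classical
  set c : ℝ := (Fintype.card (Fin t → (ZMod N)ˣ) : ℝ) with hc
  have hc0 : 0 ≤ c := Nat.cast_nonneg _
  have hAc : (A.card : ℝ) ≤ c := by
    rw [hc]; exact_mod_cast Finset.card_le_univ A
  unfold BB
  rw [Finset.sum_comm]
  have h1 : ∀ j ∈ idx t J, ∑ G ∈ A,
      (∑ j0 ∈ (range (J + 1)).filter (fun j0 => t * J < j0 + ∑ i, j i), EE (jj j0 j) G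
        + 2 ^ (t + 1) * (1 + RR (win J j) G) + 2 * 4 ^ (t + 1))
      ≤ 12 * 40 ^ (t + 1) * (Q + 1) * c := by
    intro j hj
    have hsum := idx_sum_le hj
    rw [Finset.sum_add_distrib, Finset.sum_add_distrib]
    have h2 : ∑ G ∈ A, ∑ j0 ∈ (range (J + 1)).filter (fun j0 => t * J < j0 + ∑ i, j i),
        EE (jj j0 j) G ≤ 2 * 40 ^ (t + 1) * (Q + 4) * c := by
      rw [Finset.sum_comm]
      calc ∑ j0 ∈ (range (J + 1)).filter (fun j0 => t * J < j0 + ∑ i, j i), ∑ G ∈ A,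
            EE (jj j0 j) G
          ≤ ∑ j0 ∈ (range (J + 1)).filter (fun j0 => t * J < j0 + ∑ i, j i),
              2 * 40 ^ (t + 1) * (3 / 4) ^ (j0 + ∑ i, j i - t * J - Q) * c := by
            refine Finset.sum_le_sum fun j0 hj0 => ?_
            simp only [mem_filter, mem_range] at hj0
            exact sum_EE_good_le' hJ hJ' A hA j0 (by omega) j hj hj0.2
        _ = 2 * 40 ^ (t + 1) * c * ∑ j0 ∈ (range (J + 1)).filter (fun j0 =>
              t * J < j0 + ∑ i, j i), (3 / 4) ^ (j0 + ∑ i, j i - t * J - Q) := by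
            rw [Finset.mul_sum]
            exact Finset.sum_congr rfl fun _ _ => by ring
        _ ≤ 2 * 40 ^ (t + 1) * c * ∑ q ∈ range (J + 1), (3 / 4) ^ (q - Q) := by
            refine mul_le_mul_of_nonneg_left ?_ (by positivity)
            have h3 : ∑ j0 ∈ (range (J + 1)).filter (fun j0 => t * J < j0 + ∑ i, j i),
                ((3 : ℝ) / 4) ^ (j0 + ∑ i, j i - t * J - Q)
                = ∑ q ∈ ((range (J + 1)).filter (fun j0 => t * J < j0 + ∑ i, j i)).image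
                    (fun j0 => j0 + ∑ i, j i - t * J), ((3 : ℝ) / 4) ^ (q - Q) := by
              rw [Finset.sum_image]
              intro a ha b hb hab
              simp only [coe_filter, mem_range, Set.mem_ofPred_eq] at ha hb
              simp only at hab
              omega
            rw [h3]
            refine Finset.sum_le_sum_of_subset_of_nonneg ?_ fun _ _ _ => by positivity
            intro q hq
            simp only [mem_image, mem_filter, mem_range] at hq ⊢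
            obtain ⟨j0, hj0, rfl⟩ := hq
            omega
        _ ≤ 2 * 40 ^ (t + 1) * c * (Q + 4) := by
            refine mul_le_mul_of_nonneg_left ?_ (by positivity)
            rw [geom_trunc]
            have h4 : ((min (J + 1) Q : ℕ) : ℝ) ≤ Q := by exact_mod_cast min_le_right _ _
            have h5 : (0 : ℝ) ≤ 4 * (3 / 4) ^ (J + 1 - Q) := by positivity
            linarith
        _ = _ := by ring
    have h3 : ∑ G ∈ A, (2 : ℝ) ^ (t + 1) * (1 + RR (win J j) G)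
        ≤ 2 ^ (t + 1) * (1 + 8 ^ (t + 1)) * c := by
      rw [← Finset.mul_sum, Finset.sum_add_distrib, Finset.sum_const, nsmul_eq_mul, mul_one]
      have h4 : ∑ G ∈ A, RR (win J j) G ≤ 8 ^ (t + 1) * c := by
        refine le_trans ?_ (sum_RR_win_le hJ' j hj)
        exact Finset.sum_le_sum_of_subset_of_nonneg (Finset.subset_univ _)
          fun G _ _ => RR_nonneg _ _
      have h5 : (0 : ℝ) < 2 ^ (t + 1) := by positivity
      rw [mul_assoc]
      refine mul_le_mul_of_nonneg_left ?_ h5.le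
      linarith
    have h4 : ∑ G ∈ A, (2 * 4 ^ (t + 1) : ℝ) ≤ 2 * 4 ^ (t + 1) * c := by
      rw [Finset.sum_const, nsmul_eq_mul, mul_comm]
      refine mul_le_mul_of_nonneg_left hAc (by positivity)
    have h5 : (2 : ℝ) ^ (t + 1) * (1 + 8 ^ (t + 1)) ≤ 2 * 40 ^ (t + 1) := by
      have e1 : (2 : ℝ) ^ (t + 1) * (1 + 8 ^ (t + 1)) = 2 ^ (t + 1) + 16 ^ (t + 1) := by
        rw [mul_add, mul_one, ← mul_pow]; norm_num
      have e2 : (2 : ℝ) ^ (t + 1) ≤ 40 ^ (t + 1) := pow_le_pow_left₀ (by norm_num) (by norm_num) _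
      have e3 : (16 : ℝ) ^ (t + 1) ≤ 40 ^ (t + 1) := pow_le_pow_left₀ (by norm_num) (by norm_num) _
      rw [e1]; linarith
    have h6 : (4 : ℝ) ^ (t + 1) ≤ 40 ^ (t + 1) := pow_le_pow_left₀ (by norm_num) (by norm_num) _
    have h7 : (0 : ℝ) < 40 ^ (t + 1) := by positivity
    have h8 : (0 : ℝ) ≤ Q := Nat.cast_nonneg _
    calc _ ≤ 2 * 40 ^ (t + 1) * (Q + 4) * c + 2 ^ (t + 1) * (1 + 8 ^ (t + 1)) * c
            + 2 * 4 ^ (t + 1) * c := add_le_add (add_le_add h2 h3) h4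
      _ ≤ 2 * 40 ^ (t + 1) * (Q + 4) * c + 2 * 40 ^ (t + 1) * c + 2 * 40 ^ (t + 1) * c := by
          gcongr
      _ = 40 ^ (t + 1) * c * (2 * Q + 12) := by ring
      _ ≤ 40 ^ (t + 1) * c * (12 * (Q + 1)) := by
          refine mul_le_mul_of_nonneg_left (by linarith) (by positivity)
      _ = _ := by ring
  refine (Finset.sum_le_sum h1).trans (le_of_eq ?_)
  rw [Finset.sum_const, nsmul_eq_mul]
  have h2 : (idx t J).card = (J + 1) ^ t := by
    unfold idx
    simp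
  rw [h2]
  push_cast
  ring

/-- multiplication of a vector of units by a unit -/
def smulG (u : (ZMod N)ˣ) (G : Fin t → (ZMod N)ˣ) : Fin t → (ZMod N)ˣ := fun i => u * G i

lemma smulG_injective (u : (ZMod N)ˣ) : Function.Injective (smulG (t := t) u) := by
  intro G G' h
  funext i
  exact mul_left_cancel (congrFun h i)

theorem exists_good {κ : Type*} (S : Finset κ) (u : κ → (ZMod N)ˣ) (Q : ℕ)
    (hQ : 4 * (5 * ((Nat.log 2 N + 1 : ℕ) : ℝ)) ^ (t + 1) * S.card ≤ 2 ^ Q) :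
    ∃ G : Fin t → (ZMod N)ˣ, ∑ k ∈ S, BB (Nat.log 2 N) (smulG (u k) G)
      ≤ 24 * 40 ^ (t + 1) * (Q + 1) * ((Nat.log 2 N + 1 : ℕ) : ℝ) ^ t * S.card := by
  classical
  have hNp := (Fact.out : N.Prime)
  have hN0 : (0 : ℝ) < N := by exact_mod_cast hNp.pos
  set J := Nat.log 2 N with hJdef
  have hJ : N < 2 ^ (J + 1) := Nat.lt_pow_succ_log_self (by norm_num) N
  have hJ' : 2 ^ J ≤ N := Nat.pow_log_le_self 2 hNp.ne_zero
  set c : ℝ := (Fintype.card (Fin t → (ZMod N)ˣ) : ℝ) with hc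
  have hc0 : 0 < c := by
    rw [hc]; exact_mod_cast Fintype.card_pos
  set Z : ℝ := (N : ℝ) / 2 ^ Q with hZ
  have hZ0 : 0 < Z := by positivity
  -- the bad sets
  set A : Finset (Fin t → (ZMod N)ˣ) := univ.filter (fun G => ∀ k ∈ S, Good Z (smulG (u k) G))
    with hA
  have hbad : ((univ.filter (fun G : Fin t → (ZMod N)ˣ => ¬ ∀ k ∈ S, Good Z (smulG (u k) G))).card
      : ℝ) ≤ c / 2 := by
    have h1 : (univ.filter (fun G : Fin t → (ZMod N)ˣ => ¬ ∀ k ∈ S, Good Z (smulG (u k) G)))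
        ⊆ S.biUnion (fun k => univ.filter (fun G : Fin t → (ZMod N)ˣ =>
            ¬ Good Z (smulG (u k) G))) := by
      intro G hG
      simp only [mem_filter, mem_univ, true_and] at hG
      push Not at hG
      obtain ⟨k, hk, hk2⟩ := hG
      simp only [mem_biUnion, mem_filter, mem_univ, true_and]
      exact ⟨k, hk, hk2⟩
    have h2 : ∀ k ∈ S, ((univ.filter (fun G : Fin t → (ZMod N)ˣ =>
            ¬ Good Z (smulG (u k) G))).card : ℝ)
        ≤ 2 * Z / N * (5 * (J + 1 : ℕ)) ^ (t + 1) * c := by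
      intro k _
      refine le_trans ?_ (bad_count (t := t) hZ0)
      have : (univ.filter (fun G : Fin t → (ZMod N)ˣ => ¬ Good Z (smulG (u k) G))).card
          ≤ (univ.filter (fun G : Fin t → (ZMod N)ˣ => ¬ Good Z G)).card := by
        apply Finset.card_le_card_of_injOn (smulG (u k))
        · intro G hG
          simp only [coe_filter, mem_univ, true_and, Set.mem_ofPred_eq] at hG ⊢
          exact hG
        · exact (smulG_injective (u k)).injOn
      exact_mod_cast this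
    have h3 : ((univ.filter (fun G : Fin t → (ZMod N)ˣ =>
          ¬ ∀ k ∈ S, Good Z (smulG (u k) G))).card : ℝ)
        ≤ ∑ k ∈ S, ((univ.filter (fun G : Fin t → (ZMod N)ˣ =>
            ¬ Good Z (smulG (u k) G))).card : ℝ) := by
      exact_mod_cast (Finset.card_le_card h1).trans Finset.card_biUnion_le
    refine h3.trans ((Finset.sum_le_sum h2).trans ?_)
    rw [Finset.sum_const, nsmul_eq_mul]
    have h4 : 2 * Z / N = 2 / 2 ^ Q := by
      rw [hZ]; field_simp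
    rw [h4]
    have h5 : (0 : ℝ) < 2 ^ Q := by positivity
    have h6 : (S.card : ℝ) * (2 / 2 ^ Q * (5 * (J + 1 : ℕ)) ^ (t + 1) * c)
        = (4 * (5 * ((J + 1 : ℕ) : ℝ)) ^ (t + 1) * S.card) / 2 ^ Q * (c / 2) := by
      field_simp
      ring
    rw [h6]
    have h7 : (4 * (5 * ((J + 1 : ℕ) : ℝ)) ^ (t + 1) * S.card) / 2 ^ Q ≤ 1 := by
      rw [div_le_one h5]; exact hQ
    calc _ ≤ 1 * (c / 2) := by
          refine mul_le_mul_of_nonneg_right h7 (by positivity)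
      _ = c / 2 := one_mul _
  have hAcard : c / 2 ≤ (A.card : ℝ) := by
    have h1 := Finset.card_filter_add_card_filter_not
      (s := (univ : Finset (Fin t → (ZMod N)ˣ))) (fun G => ∀ k ∈ S, Good Z (smulG (u k) G))
    have h2 : (A.card : ℝ) + ((univ.filter (fun G : Fin t → (ZMod N)ˣ =>
        ¬ ∀ k ∈ S, Good Z (smulG (u k) G))).card : ℝ) = c := by
      rw [hc, ← Finset.card_univ, hA]
      exact_mod_cast h1
    linarith
  have hAne : A.Nonempty := by
    rw [← Finset.card_pos]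
    have : (0 : ℝ) < A.card := by linarith
    exact_mod_cast this
  set B : ℝ := 12 * 40 ^ (t + 1) * (Q + 1) * (J + 1) ^ t with hB
  have hB0 : 0 ≤ B := by positivity
  have hsum : ∑ G ∈ A, ∑ k ∈ S, BB J (smulG (u k) G) ≤ S.card * (B * c) := by
    rw [Finset.sum_comm]
    have h1 : ∀ k ∈ S, ∑ G ∈ A, BB J (smulG (u k) G) ≤ B * c := by
      intro k hk
      have h2 : ∑ G ∈ A, BB J (smulG (u k) G) = ∑ G ∈ A.image (smulG (u k)), BB J G := by
        rw [Finset.sum_image]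
        exact (smulG_injective (u k)).injOn
      rw [h2]
      refine (sum_BB_good_le hJ hJ' (Q := Q) _ ?_)
      intro G hG
      simp only [mem_image, hA, mem_filter, mem_univ, true_and] at hG
      obtain ⟨G', hG', rfl⟩ := hG
      exact hG' k hk
    refine (Finset.sum_le_sum h1).trans (le_of_eq ?_)
    rw [Finset.sum_const, nsmul_eq_mul]
  have hle : ∑ G ∈ A, ∑ k ∈ S, BB J (smulG (u k) G) ≤ ∑ G ∈ A, (2 * B * S.card) := by
    rw [Finset.sum_const, nsmul_eq_mul]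
    refine hsum.trans ?_
    have h1 : (0 : ℝ) ≤ S.card := Nat.cast_nonneg _
    have h2 : 0 ≤ B * S.card := by positivity
    nlinarith
  obtain ⟨G, _, hG⟩ := Finset.exists_le_of_sum_le hAne hle
  refine ⟨G, hG.trans (le_of_eq ?_)⟩
  rw [hB]
  push_cast
  ring

end

end Pool.Agent.Helper3.Halton
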