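import Pool.Agent.Helper3.Halton.Mean

/-!
# Counting in residue classes
-/

open Finset

namespace Pool.Agent.Helper3.Halton

section
variable {N : ℕ} [Fact N.Prime] {t : ℕ}

lemma val_window (x : ZMod N) {U V : ℕ} (hUV : U ≤ V) (hV : V ≤ N) :
    (U ≤ x.val ∧ x.val < V) ↔ (x - (U : ZMod N)).val < V - U := by
  have hN := (Fact.out : N.Prime).pos
  have hx : x.val < N := ZMod.val_lt x
  rcases Nat.lt_or_ge x.val U with h | h
  · -- wrap-around
    constructor
    · rintro ⟨h1, _⟩; omega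
    · intro h1
      exfalso
      rcases Nat.lt_or_ge U N with hU | hU
      · have e : x - (U : ZMod N) = ((x.val + (N - U) : ℕ) : ZMod N) := by
          push_cast
          rw [ZMod.natCast_zmod_val, Nat.cast_sub hU.le]
          simp
          ring
        rw [e, ZMod.val_cast_of_lt (by omega)] at h1
        omega
      · have : V - U = 0 := by omega
        omega
  · have e : x - (U : ZMod N) = ((x.val - U : ℕ) : ZMod N) := by
      rw [Nat.cast_sub h, ZMod.natCast_zmod_val]
    rw [e, ZMod.val_cast_of_lt (by omega)]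
    omega

/-- weight: indicator of an interval of `n` and of windows for `n g_j` modulo `N` -/
noncomputable def wgt (P Q : ℕ) (U V : Fin t → ℕ) (g : Fin t → (ZMod N)ˣ) (n : ℕ) : ℝ :=
  (if (P ≤ n ∧ n < Q) then 1 else 0) *
    ∏ j, (if (U j ≤ ((n : ZMod N) * (g j : ZMod N)).val ∧ ((n : ZMod N) * (g j : ZMod N)).val < V j)
      then (1 : ℝ) else 0)

lemma wgt_nonneg (P Q : ℕ) (U V : Fin t → ℕ) (g : Fin t → (ZMod N)ˣ) (n : ℕ) :
    0 ≤ wgt P Q U V g n := by
  unfold wgt
  refine mul_nonneg (by split_ifs <;> norm_num) (Finset.prod_nonneg fun j _ => ?_)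
  split_ifs <;> norm_num

lemma wgt_le_one (P Q : ℕ) (U V : Fin t → ℕ) (g : Fin t → (ZMod N)ˣ) (n : ℕ) :
    wgt P Q U V g n ≤ 1 := by
  unfold wgt
  have h1 : ∏ j, (if (U j ≤ ((n : ZMod N) * (g j : ZMod N)).val ∧
      ((n : ZMod N) * (g j : ZMod N)).val < V j) then (1 : ℝ) else 0) ≤ 1 :=
    Finset.prod_le_one (fun j _ => by split_ifs <;> norm_num) (fun j _ => by split_ifs <;> norm_num)
  have h0 : 0 ≤ ∏ j, (if (U j ≤ ((n : ZMod N) * (g j : ZMod N)).val ∧
      ((n : ZMod N) * (g j : ZMod N)).val < V j) then (1 : ℝ) else 0) :=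
    Finset.prod_nonneg (fun j _ => by split_ifs <;> norm_num)
  split_ifs
  · linarith
  · simp

/-- The main term. -/
noncomputable def mainT (N P Q : ℕ) {t : ℕ} (U V : Fin t → ℕ) : ℝ :=
  ((Q : ℝ) - P) * ∏ j, (((V j : ℝ) - U j) / N)

lemma prodUV_mem {U V : Fin t → ℕ} (hUV : ∀ j, U j ≤ V j) (hV : ∀ j, V j ≤ N) :
    0 ≤ ∏ j, (((V j : ℝ) - U j) / N) ∧ ∏ j, (((V j : ℝ) - U j) / N) ≤ 1 := by
  have hN0 : (0 : ℝ) < N := by exact_mod_cast (Fact.out : N.Prime).pos
  have h0 : ∀ j, 0 ≤ ((V j : ℝ) - U j) / N := fun j => by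
    have : (U j : ℝ) ≤ V j := by exact_mod_cast hUV j
    exact div_nonneg (by linarith) hN0.le
  refine ⟨Finset.prod_nonneg fun j _ => h0 j, Finset.prod_le_one (fun j _ => h0 j) fun j _ => ?_⟩
  rw [div_le_one hN0]
  have : (V j : ℝ) ≤ N := by exact_mod_cast hV j
  have : (0 : ℝ) ≤ U j := Nat.cast_nonneg _
  linarith

theorem residue_small {M : ℕ} (hM : 0 < M) (u : (ZMod N)ˣ)
    (hu : (u : ZMod N) = (M : ZMod N)) {P Q : ℕ} (hPQ : P ≤ Q) (hQ : Q ≤ N) {U V : Fin t → ℕ}
    (hUV : ∀ j, U j ≤ V j) (hV : ∀ j, V j ≤ N) (g : Fin t → (ZMod N)ˣ) (R : ℕ) :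
    |∑ n ∈ range N, wgt P Q U V g n * (if n ≡ R [MOD M] then 1 else 0) - mainT N P Q U V / M|
      ≤ BB (Nat.log 2 N) (smulG u g) + 1 := by
  classical
  have hNp := (Fact.out : N.Prime)
  have hN0 : (0 : ℝ) < N := by exact_mod_cast hNp.pos
  have hM0 : (0 : ℝ) < M := by exact_mod_cast hM
  set J := Nat.log 2 N with hJdef
  have hJ : N < 2 ^ (J + 1) := Nat.lt_pow_succ_log_self (by norm_num) N
  have hJ' : 2 ^ J ≤ N := Nat.pow_log_le_self 2 hNp.ne_zero
  set R0 := R % M with hR0
  have hR0M : R0 < M := Nat.mod_lt _ hM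
  set c := M - 1 - R0 with hc
  have key : ∀ x m : ℕ, R0 + M * m < x ↔ m < (x + c) / M := by
    intro x m
    have h1 : m < (x + c) / M ↔ (m + 1) * M ≤ x + c := by
      rw [← Nat.succ_le_iff, Nat.le_div_iff_mul_le hM]
    rw [h1]
    have h2 : (m + 1) * M = M * m + M := by ring
    rw [h2]
    omega
  set m1 := (P + c) / M with hm1
  set m2 := (Q + c) / M with hm2
  have hm12 : m1 ≤ m2 := Nat.div_le_div_right (by omega)
  have hm2N : m2 ≤ N := by
    rw [hm2]
    apply Nat.div_le_of_le_mul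
    have h1 : N + M ≤ N * M + 1 := by
      obtain ⟨a, ha⟩ : ∃ a, N = a + 1 := ⟨N - 1, by have := hNp.pos; omega⟩
      obtain ⟨b, hb⟩ : ∃ b, M = b + 1 := ⟨M - 1, by omega⟩
      rw [ha, hb]
      nlinarith [Nat.zero_le (a * b)]
    rw [mul_comm M N]
    omega
  -- rewrite the sum
  set h : ZMod N → ℝ := fun x => ∏ j, (if (U j ≤ (x * (u * g j : ZMod N) + R0 * g j).val ∧
    (x * (u * g j : ZMod N) + R0 * g j).val < V j) then (1 : ℝ) else 0) with hh
  have e1 : ∑ n ∈ range N, wgt P Q U V g n * (if n ≡ R [MOD M] then 1 else 0)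
      = ∑ m ∈ Ico m1 m2, h (m : ZMod N) := by
    have e2 : ∑ n ∈ range N, wgt P Q U V g n * (if n ≡ R [MOD M] then 1 else 0)
        = ∑ n ∈ (range N).filter (fun n => (P ≤ n ∧ n < Q) ∧ n ≡ R [MOD M]),
          ∏ j, (if (U j ≤ ((n : ZMod N) * (g j : ZMod N)).val ∧
            ((n : ZMod N) * (g j : ZMod N)).val < V j) then (1 : ℝ) else 0) := by
      rw [Finset.sum_filter]
      refine Finset.sum_congr rfl fun n _ => ?_
      unfold wgt
      by_cases h1 : (P ≤ n ∧ n < Q)
      · by_cases h2 : n ≡ R [MOD M]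
        · rw [if_pos h1, if_pos h2, if_pos (show (P ≤ n ∧ n < Q) ∧ n ≡ R [MOD M] from ⟨h1, h2⟩)]
          ring
        · rw [if_neg h2, if_neg (show ¬ ((P ≤ n ∧ n < Q) ∧ n ≡ R [MOD M]) from fun h => h2 h.2),
            mul_zero]
      · rw [if_neg h1, if_neg (show ¬ ((P ≤ n ∧ n < Q) ∧ n ≡ R [MOD M]) from fun h => h1 h.1),
          zero_mul, zero_mul]
    rw [e2]
    symm
    apply Finset.sum_bij (fun m _ => R0 + M * m)
    · intro m hm
      rw [mem_Ico] at hm
      have h1 : R0 + M * m < Q := (key Q m).mpr hm.2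
      have h2 : ¬ (R0 + M * m < P) := fun h3 => by
        have := (key P m).mp h3
        omega
      rw [mem_filter, mem_range]
      refine ⟨by omega, ⟨by omega, h1⟩, ?_⟩
      unfold Nat.ModEq
      rw [Nat.add_mul_mod_self_left, Nat.mod_eq_of_lt hR0M]
    · intro m _ m' _ hmm
      have h1 : M * m = M * m' := by omega
      exact Nat.eq_of_mul_eq_mul_left hM h1
    · intro n hn
      rw [mem_filter, mem_range] at hn
      obtain ⟨hn1, ⟨hn2, hn3⟩, hn4⟩ := hn
      have h1 : n % M = R0 := hn4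
      have h2 : R0 + M * (n / M) = n := by
        rw [← h1]; exact Nat.mod_add_div n M
      refine ⟨n / M, ?_, h2⟩
      rw [mem_Ico]
      constructor
      · by_contra h3
        push Not at h3
        have := (key P (n / M)).mpr h3
        omega
      · apply (key Q (n / M)).mp
        omega
    · intro m _
      simp only [hh]
      refine Finset.prod_congr rfl fun j _ => ?_
      have e3 : ((R0 + M * m : ℕ) : ZMod N) * (g j : ZMod N)
          = (m : ZMod N) * (u * g j) + R0 * g j := by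
        push_cast
        rw [hu]
        ring
      rw [e3]
  set y : Option (Fin t) → ZMod N := fun o => o.elim (-(m1 : ZMod N))
    (fun j => (R0 : ZMod N) * g j - (U j : ZMod N)) with hy
  set L : Option (Fin t) → ℕ := fun o => o.elim (m2 - m1) (fun j => V j - U j) with hL
  have e4 : ∑ m ∈ Ico m1 m2, h (m : ZMod N)
      = ∑ x : ZMod N, ∏ o, (if (x * av (smulG u g) o + y o).val < L o then (1 : ℝ) else 0) := by
    have e5 : ∀ x : ZMod N, ∏ o, (if (x * av (smulG u g) o + y o).val < L o then (1 : ℝ) else 0)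
        = (if (m1 ≤ x.val ∧ x.val < m2) then h x else 0) := by
      intro x
      rw [Fintype.prod_option]
      have e6 : (x * av (smulG u g) none + y none).val < L none ↔ (m1 ≤ x.val ∧ x.val < m2) := by
        rw [val_window x hm12 hm2N]
        simp only [av_none, hy, hL, Option.elim_none, mul_one, sub_eq_add_neg]
      have e7 : ∏ j, (if (x * av (smulG u g) (some j) + y (some j)).val < L (some j)
          then (1 : ℝ) else 0) = h x := by
        simp only [hh]
        refine Finset.prod_congr rfl fun j _ => ?_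
        have e8 : (x * av (smulG u g) (some j) + y (some j)).val < L (some j) ↔
            (U j ≤ (x * (u * g j : ZMod N) + R0 * g j).val ∧
              (x * (u * g j : ZMod N) + R0 * g j).val < V j) := by
          rw [val_window _ (hUV j) (hV j)]
          simp only [av_some, hy, hL, Option.elim_some, smulG]
          have : x * ((u * g j : (ZMod N)ˣ) : ZMod N) + ((R0 : ZMod N) * g j - (U j : ZMod N))
              = x * (u * g j : ZMod N) + R0 * g j - (U j : ZMod N) := by
            push_cast; ring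
          rw [this]
        by_cases h9 : (U j ≤ (x * (u * g j : ZMod N) + R0 * g j).val ∧
              (x * (u * g j : ZMod N) + R0 * g j).val < V j)
        · rw [if_pos h9, if_pos (e8.mpr h9)]
        · rw [if_neg h9, if_neg (fun h => h9 (e8.mp h))]
      rw [e7]
      by_cases h9 : (m1 ≤ x.val ∧ x.val < m2)
      · rw [if_pos h9, if_pos (e6.mpr h9), one_mul]
      · rw [if_neg h9, if_neg (fun h => h9 (e6.mp h)), zero_mul]
    simp_rw [e5]
    rw [← Finset.sum_filter]
    refine Finset.sum_bij (fun (m : ℕ) _ => (m : ZMod N)) ?_ ?_ ?_ ?_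
    · intro m hm
      rw [mem_Ico] at hm
      rw [mem_filter]
      refine ⟨mem_univ _, ?_⟩
      rw [ZMod.val_cast_of_lt (by omega)]
      exact hm
    · intro m hm m' hm' hmm
      rw [mem_Ico] at hm hm'
      have := congrArg ZMod.val hmm
      rwa [ZMod.val_cast_of_lt (by omega), ZMod.val_cast_of_lt (by omega)] at this
    · intro x hx
      rw [mem_filter] at hx
      refine ⟨x.val, ?_, ?_⟩
      · rw [mem_Ico]; exact hx.2
      · rw [ZMod.natCast_zmod_val]
    · intro m _
      rfl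
  rw [e1, e4]
  have hLN : ∀ o, L o ≤ N := by
    intro o
    cases o with
    | none => exact (Nat.sub_le _ _).trans hm2N
    | some j => exact (Nat.sub_le _ _).trans (hV j)
  have hcb := count_bound J hJ hJ' (smulG u g) L hLN y
  set S := ∑ x : ZMod N, ∏ o, (if (x * av (smulG u g) o + y o).val < L o then (1 : ℝ) else 0)
  set p := ∏ j, (((V j : ℝ) - U j) / N) with hp
  have hp01 := prodUV_mem hUV hV
  rw [← hp] at hp01
  have e10 : (N : ℝ) * ∏ o, ((L o : ℝ) / N) = ((m2 : ℝ) - m1) * p := by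
    rw [Fintype.prod_option]
    have e11 : ∏ j, ((L (some j) : ℝ) / N) = p := by
      rw [hp]
      refine Finset.prod_congr rfl fun j _ => ?_
      simp only [hL, Option.elim_some]
      rw [Nat.cast_sub (hUV j)]
    rw [e11]
    simp only [hL, Option.elim_none]
    rw [Nat.cast_sub hm12]
    field_simp
  rw [e10] at hcb
  have e12 : |((m2 : ℝ) - m1) - ((Q : ℝ) - P) / M| ≤ 1 := by
    have a1 : M * m1 ≤ P + c := Nat.mul_div_le _ _
    have a2 : P + c < M * (m1 + 1) := Nat.lt_mul_div_succ _ hM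
    have a3 : M * m2 ≤ Q + c := Nat.mul_div_le _ _
    have a4 : Q + c < M * (m2 + 1) := Nat.lt_mul_div_succ _ hM
    have b1 : (M : ℝ) * m1 ≤ P + c := by exact_mod_cast a1
    have b2 : (P : ℝ) + c < M * (m1 + 1) := by exact_mod_cast a2
    have b3 : (M : ℝ) * m2 ≤ Q + c := by exact_mod_cast a3
    have b4 : (Q : ℝ) + c < M * (m2 + 1) := by exact_mod_cast a4
    rw [abs_le]
    constructor
    · rw [neg_le_sub_iff_le_add, div_le_iff₀ hM0]
      nlinarith
    · rw [sub_le_iff_le_add, ← sub_le_iff_le_add', le_div_iff₀ hM0]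
      nlinarith
  have e13 : mainT N P Q U V / M = (((Q : ℝ) - P) / M) * p := by
    unfold mainT
    rw [← hp]; ring
  rw [e13]
  have e14 : |((m2 : ℝ) - m1) * p - (((Q : ℝ) - P) / M) * p| ≤ 1 := by
    rw [← sub_mul, abs_mul, abs_of_nonneg hp01.1]
    calc _ ≤ 1 * p := mul_le_mul_of_nonneg_right e12 hp01.1
      _ ≤ 1 := by rw [one_mul]; exact hp01.2
  calc |S - (((Q : ℝ) - P) / M) * p|
      = |(S - ((m2 : ℝ) - m1) * p) + (((m2 : ℝ) - m1) * p - (((Q : ℝ) - P) / M) * p)| := by
        congr 1; ring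
    _ ≤ |S - ((m2 : ℝ) - m1) * p| + |((m2 : ℝ) - m1) * p - (((Q : ℝ) - P) / M) * p| :=
        abs_add_le _ _
    _ ≤ _ := add_le_add hcb e14

theorem residue_large {M : ℕ} (hM : N ≤ M) {P Q : ℕ} (hPQ : P ≤ Q) (hQ : Q ≤ N)
    {U V : Fin t → ℕ} (hUV : ∀ j, U j ≤ V j) (hV : ∀ j, V j ≤ N) (g : Fin t → (ZMod N)ˣ)
    (R : ℕ) :
    |∑ n ∈ range N, wgt P Q U V g n * (if n ≡ R [MOD M] then 1 else 0) - mainT N P Q U V / M|
      ≤ 1 := by
  classical
  have hNp := (Fact.out : N.Prime)
  have hN0 : (0 : ℝ) < N := by exact_mod_cast hNp.pos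
  have hMN : (N : ℝ) ≤ M := by exact_mod_cast hM
  have hM0 : (0 : ℝ) < M := by linarith
  have h0 : 0 ≤ ∑ n ∈ range N, wgt P Q U V g n * (if n ≡ R [MOD M] then 1 else 0) := by
    refine Finset.sum_nonneg fun n _ => mul_nonneg (wgt_nonneg _ _ _ _ _ _) ?_
    split_ifs <;> norm_num
  have h1 : ∑ n ∈ range N, wgt P Q U V g n * (if n ≡ R [MOD M] then 1 else 0) ≤ 1 := by
    calc ∑ n ∈ range N, wgt P Q U V g n * (if n ≡ R [MOD M] then 1 else 0)
        ≤ ∑ n ∈ range N, (if n = R % M then (1 : ℝ) else 0) := by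
          refine Finset.sum_le_sum fun n hn => ?_
          rw [mem_range] at hn
          by_cases h2 : n ≡ R [MOD M]
          · have h3 : n = R % M := by
              have : n % M = R % M := h2
              rwa [Nat.mod_eq_of_lt (by omega)] at this
            rw [if_pos h2, if_pos h3, mul_one]
            exact wgt_le_one _ _ _ _ _ _
          · rw [if_neg h2, mul_zero]
            split_ifs <;> norm_num
      _ ≤ 1 := by
          rw [Finset.sum_ite_eq' (range N) (R % M)]
          split_ifs <;> norm_num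
  have hp01 := prodUV_mem hUV hV
  have hPQ' : (P : ℝ) ≤ Q := by exact_mod_cast hPQ
  have hQ' : (Q : ℝ) ≤ N := by exact_mod_cast hQ
  have hP0 : (0 : ℝ) ≤ P := Nat.cast_nonneg _
  have h2 : 0 ≤ mainT N P Q U V / M := by
    unfold mainT
    exact div_nonneg (mul_nonneg (by linarith) hp01.1) hM0.le
  have h3 : mainT N P Q U V / M ≤ 1 := by
    rw [div_le_one hM0]
    unfold mainT
    have : ((Q : ℝ) - P) * ∏ j, (((V j : ℝ) - U j) / N) ≤ ((Q : ℝ) - P) * 1 :=
      mul_le_mul_of_nonneg_left hp01.2 (by linarith)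
    linarith
  rw [abs_le]
  constructor <;> linarith

end

end Pool.Agent.Helper3.Halton
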