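import Pool.Agent.Helper3.Halton.Trapezoid

/-!
# Elementary sums over `ZMod N`
-/

open Finset

namespace Pool.Agent.Helper3.Halton

section
variable {N : ℕ} [NeZero N]

lemma card_nrm_eq (k : ℕ) : (univ.filter (fun h : ZMod N => nrm h = k)).card ≤ 2 := by
  classical
  have : univ.filter (fun h : ZMod N => nrm h = k) ⊆ {((k : ℤ) : ZMod N), ((-(k : ℤ) : ℤ) : ZMod N)} := by
    intro h hh
    simp only [mem_filter, mem_univ, true_and] at hh
    unfold nrm at hh
    rw [Finset.mem_insert, Finset.mem_singleton]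
    rcases Int.natAbs_eq_iff.mp hh with h1 | h1
    · left; rw [← h1, ZMod.coe_valMinAbs]
    · right; rw [← h1, ZMod.coe_valMinAbs]
  exact (Finset.card_le_card this).trans Finset.card_le_two

lemma sum_nrm_le (F : ℕ → ℝ) (hF : ∀ k, 0 ≤ F k) :
    ∑ h : ZMod N, F (nrm h) ≤ F 0 + 2 * ∑ k ∈ Icc 1 N, F k := by
  classical
  have h1 : ∑ h : ZMod N, F (nrm h) = ∑ k ∈ range (N + 1),
      ∑ h ∈ univ.filter (fun h : ZMod N => nrm h = k), F (nrm h) := by
    rw [Finset.sum_fiberwise_of_maps_to]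
    intro h _
    have := nrm_le h
    rw [mem_range]; omega
  have h2 : ∀ k, ∑ h ∈ univ.filter (fun h : ZMod N => nrm h = k), F (nrm h)
      = (univ.filter (fun h : ZMod N => nrm h = k)).card * F k := by
    intro k
    rw [Finset.sum_congr rfl (g := fun _ => F k)]
    · rw [Finset.sum_const, nsmul_eq_mul]
    · intro h hh
      simp only [mem_filter, mem_univ, true_and] at hh
      rw [hh]
  simp_rw [h2] at h1
  rw [h1, Finset.range_eq_Ico, Finset.sum_eq_sum_Ico_succ_bot (by omega)]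
  have h3 : (univ.filter (fun h : ZMod N => nrm h = 0)).card = 1 := by
    rw [Finset.card_eq_one]
    refine ⟨0, ?_⟩
    ext h
    simp only [mem_filter, mem_univ, true_and, mem_singleton]
    exact nrm_eq_zero
  rw [h3, Nat.cast_one, one_mul]
  gcongr
  rw [Finset.mul_sum]
  have h4 : Ico (0 + 1) (N + 1) = Icc 1 N := by
    ext; simp only [mem_Ico, mem_Icc]; omega
  rw [h4]
  refine Finset.sum_le_sum fun k _ => ?_
  have : ((univ.filter (fun h : ZMod N => nrm h = k)).card : ℝ) ≤ 2 := by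
    exact_mod_cast card_nrm_eq k
  exact mul_le_mul_of_nonneg_right this (hF k)

lemma card_nrm_lt (W : ℕ) :
    ((univ.filter (fun h : ZMod N => h ≠ 0 ∧ nrm h < W)).card : ℝ) ≤ 2 * W := by
  classical
  have h1 := sum_nrm_le (N := N) (fun k => if k ≠ 0 ∧ k < W then (1 : ℝ) else 0)
    (fun k => by split_ifs <;> norm_num)
  have h2 : ∑ h : ZMod N, (if nrm h ≠ 0 ∧ nrm h < W then (1 : ℝ) else 0)
      = ((univ.filter (fun h : ZMod N => h ≠ 0 ∧ nrm h < W)).card : ℝ) := by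
    rw [← Finset.sum_filter, Finset.sum_const, nsmul_eq_mul, mul_one]
    congr 2
    ext h
    simp only [mem_filter, mem_univ, true_and, ne_eq, nrm_eq_zero]
  rw [← h2]
  refine h1.trans ?_
  have h3 : ∑ k ∈ Icc 1 N, (if k ≠ 0 ∧ k < W then (1 : ℝ) else 0) ≤ W := by
    rw [← Finset.sum_filter, Finset.sum_const, nsmul_eq_mul, mul_one]
    have : (Icc 1 N).filter (fun k => k ≠ 0 ∧ k < W) ⊆ range W := by
      intro k hk
      simp only [mem_filter] at hk
      exact mem_range.mpr hk.2.2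
    have h4 := Finset.card_le_card this
    rw [card_range] at h4
    exact_mod_cast h4
  simp only [ne_eq, not_true_eq_false, false_and, if_false, zero_add]
  simp only [ne_eq] at h3
  linarith

lemma div_bound {w : ℕ} (hw : 1 ≤ w) (hwN : w ≤ N) :
    1 ≤ N / w ∧ (w : ℝ) * ((N / w : ℕ) : ℝ) ≤ N ∧ (N : ℝ) ≤ 2 * w * ((N / w : ℕ) : ℝ) := by
  have h1 : 1 ≤ N / w := (Nat.one_le_div_iff (by omega)).mpr hwN
  refine ⟨h1, ?_, ?_⟩
  · have : w * (N / w) ≤ N := Nat.mul_div_le N w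
    exact_mod_cast this
  · have h2 : N < w * (N / w) + w := by
      have := Nat.lt_mul_div_succ N (show 0 < w by omega)
      calc N < w * (N / w + 1) := this
        _ = w * (N / w) + w := by ring
    have h3 : w * 1 ≤ w * (N / w) := Nat.mul_le_mul_left w h1
    have h4 : N ≤ 2 * w * (N / w) := by
      calc N ≤ w * (N / w) + w := h2.le
        _ ≤ w * (N / w) + w * (N / w) := by omega
        _ = 2 * w * (N / w) := by ring
    exact_mod_cast h4

lemma sum_om_le {j : ℕ} (hj : 2 ^ j ≤ N) : ∑ h : ZMod N, om N j (nrm h) ≤ 16 * N := by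
  obtain ⟨hK1, hK2, hK3⟩ := div_bound Nat.one_le_two_pow hj
  set K := N / 2 ^ j with hK
  have hN0 : (0 : ℝ) < N := by exact_mod_cast Nat.pos_of_ne_zero (NeZero.ne N)
  have hK0 : (0 : ℝ) < K := by exact_mod_cast hK1
  have hKN : K ≤ N := Nat.div_le_self _ _
  refine (sum_nrm_le _ (om_nonneg N j)).trans ?_
  push_cast at hK2 hK3
  have h0 : om N j 0 ≤ 4 * N := by
    unfold om
    rw [if_pos rfl]
    have : ((2 ^ j : ℕ) : ℝ) ≤ N := by exact_mod_cast hj
    push_cast at this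
    linarith
  have h1 : ∑ k ∈ Icc 1 N, om N j k = ∑ k ∈ Ioc 0 K, om N j k + ∑ k ∈ Ioc K N, om N j k := by
    rw [Finset.sum_Ioc_consecutive _ (Nat.zero_le K) hKN]
    rfl
  have h2 : ∑ k ∈ Ioc 0 K, om N j k ≤ 4 * N := by
    calc ∑ k ∈ Ioc 0 K, om N j k ≤ ∑ k ∈ Ioc 0 K, (4 * 2 ^ j : ℝ) := by
          refine Finset.sum_le_sum fun k hk => ?_
          unfold om
          split_ifs
          · exact le_rfl
          · exact min_le_left _ _
      _ = K * (4 * 2 ^ j) := by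
          rw [Finset.sum_const, nsmul_eq_mul, Nat.card_Ioc, Nat.sub_zero]
      _ ≤ 4 * N := by nlinarith
  have h3 : ∑ k ∈ Ioc K N, om N j k ≤ 2 * N := by
    calc ∑ k ∈ Ioc K N, om N j k
        ≤ ∑ k ∈ Ioc K N, ((N : ℝ) ^ 2 / 2 ^ j) * ((k : ℝ) ^ 2)⁻¹ := by
          refine Finset.sum_le_sum fun k hk => ?_
          simp only [mem_Ioc] at hk
          unfold om
          rw [if_neg (by omega)]
          refine (min_le_right _ _).trans (le_of_eq ?_)
          field_simp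
      _ = ((N : ℝ) ^ 2 / 2 ^ j) * ∑ k ∈ Ioc K N, ((k : ℝ) ^ 2)⁻¹ := by rw [Finset.mul_sum]
      _ ≤ ((N : ℝ) ^ 2 / 2 ^ j) * ((K : ℝ)⁻¹ - (N : ℝ)⁻¹) := by
          refine mul_le_mul_of_nonneg_left ?_ (by positivity)
          exact sum_Ioc_inv_sq_le_sub (by omega) hKN
      _ ≤ ((N : ℝ) ^ 2 / 2 ^ j) * (K : ℝ)⁻¹ := by
          refine mul_le_mul_of_nonneg_left ?_ (by positivity)
          have : 0 ≤ (N : ℝ)⁻¹ := by positivity
          linarith
      _ ≤ 2 * N := by
          rw [← div_eq_mul_inv, div_div, div_le_iff₀ (by positivity)]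
          nlinarith
  rw [h1]
  linarith

lemma sqrt_tail (K : ℕ) (hK : 1 ≤ K) (M : ℕ) (hM : K ≤ M) :
    ∑ k ∈ Ioc K M, Real.sqrt k * ((k : ℝ) ^ 2)⁻¹ ≤ 2 / Real.sqrt K - 2 / Real.sqrt M := by
  induction M, hM using Nat.le_induction with
  | base => simp
  | succ M hM ih =>
    rw [← Finset.sum_Ioc_consecutive _ hM (Nat.le_succ M)]
    have h1 : ∑ k ∈ Ioc M (M + 1), Real.sqrt k * ((k : ℝ) ^ 2)⁻¹
        = Real.sqrt ((M + 1 : ℕ) : ℝ) * (((M + 1 : ℕ) : ℝ) ^ 2)⁻¹ := by
      rw [Nat.Ioc_succ_singleton, Finset.sum_singleton]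
    rw [h1]
    have hM0 : (0 : ℝ) < M := by exact_mod_cast (by omega : 0 < M)
    set a := Real.sqrt (M : ℝ) with ha
    set b := Real.sqrt ((M + 1 : ℕ) : ℝ) with hb
    have ha0 : 0 < a := Real.sqrt_pos.mpr hM0
    have ha2 : a ^ 2 = M := Real.sq_sqrt hM0.le
    have hb2 : b ^ 2 = M + 1 := by
      rw [hb, Real.sq_sqrt (by positivity)]; push_cast; rfl
    have hb0 : 0 < b := Real.sqrt_pos.mpr (by positivity)
    have hab : a ≤ b := Real.sqrt_le_sqrt (by push_cast; linarith)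
    have h2 : (((M + 1 : ℕ) : ℝ)) = b ^ 2 := by rw [hb2]; push_cast; rfl
    rw [h2]
    have h3 : b * ((b ^ 2) ^ 2)⁻¹ ≤ 2 / a - 2 / b := by
      have h4 : b * ((b ^ 2) ^ 2)⁻¹ = 1 / b ^ 3 := by
        field_simp
      have h5 : 2 / a - 2 / b = 2 * (b - a) / (a * b) := by
        field_simp
      rw [h4, h5, div_le_div_iff₀ (by positivity) (by positivity)]
      have h6 : (b - a) * (b + a) = 1 := by nlinarith
      have h7 : 1 * (a * b) * (b + a) ≤ 2 * (b - a) * b ^ 3 * (b + a) := by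
        have : 2 * (b - a) * b ^ 3 * (b + a) = 2 * b ^ 3 := by
          calc 2 * (b - a) * b ^ 3 * (b + a) = 2 * b ^ 3 * ((b - a) * (b + a)) := by ring
            _ = 2 * b ^ 3 := by rw [h6, mul_one]
        rw [this]
        nlinarith [mul_pos ha0 hb0, mul_nonneg hb0.le (sub_nonneg.mpr hab),
          mul_nonneg (mul_pos hb0 hb0).le (sub_nonneg.mpr hab),
          mul_nonneg (mul_pos ha0 hb0).le (sub_nonneg.mpr hab)]
      exact le_of_mul_le_mul_right h7 (by positivity)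
    linarith

lemma sum_sqrt_om_le {j : ℕ} (hj : 2 ^ j ≤ N) :
    ∑ h : ZMod N, Real.sqrt (max 1 (nrm h) : ℕ) * om N j (nrm h)
      ≤ 20 * N * Real.sqrt (N / 2 ^ j) := by
  obtain ⟨hK1, hK2, hK3⟩ := div_bound Nat.one_le_two_pow hj
  set K := N / 2 ^ j with hK
  have hN0 : (0 : ℝ) < N := by exact_mod_cast Nat.pos_of_ne_zero (NeZero.ne N)
  have hK0 : (0 : ℝ) < K := by exact_mod_cast hK1
  have hKN : K ≤ N := Nat.div_le_self _ _
  refine (sum_nrm_le (fun k => Real.sqrt (max 1 k : ℕ) * om N j k)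
    (fun k => mul_nonneg (Real.sqrt_nonneg _) (om_nonneg N j k))).trans ?_
  push_cast at hK2 hK3
  have hj' : (2 : ℝ) ^ j ≤ N := by exact_mod_cast hj
  have h2j : (0 : ℝ) < 2 ^ j := by positivity
  set S := Real.sqrt ((N : ℝ) / 2 ^ j) with hS
  have hS1 : 1 ≤ S := by
    rw [hS, Real.one_le_sqrt, le_div_iff₀ h2j]; linarith
  have hS2 : S ^ 2 = N / 2 ^ j := Real.sq_sqrt (by positivity)
  have hKS : Real.sqrt K ≤ S := by
    apply Real.sqrt_le_sqrt
    rw [le_div_iff₀ h2j]; linarith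
  have hSK : S ≤ 2 * Real.sqrt K := by
    rw [hS, Real.sqrt_le_left (by positivity), mul_pow, Real.sq_sqrt hK0.le, div_le_iff₀ h2j]
    nlinarith
  have h0 : Real.sqrt (max 1 0 : ℕ) * om N j 0 ≤ 4 * N * S := by
    unfold om
    rw [if_pos rfl]
    have : Real.sqrt (max 1 0 : ℕ) = 1 := by norm_num
    rw [this]
    nlinarith
  have h1 : ∑ k ∈ Icc 1 N, Real.sqrt (max 1 k : ℕ) * om N j k
      = ∑ k ∈ Ioc 0 K, Real.sqrt (max 1 k : ℕ) * om N j k
        + ∑ k ∈ Ioc K N, Real.sqrt (max 1 k : ℕ) * om N j k := by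
    rw [Finset.sum_Ioc_consecutive _ (Nat.zero_le K) hKN]
    rfl
  have h2 : ∑ k ∈ Ioc 0 K, Real.sqrt (max 1 k : ℕ) * om N j k ≤ 4 * N * S := by
    calc ∑ k ∈ Ioc 0 K, Real.sqrt (max 1 k : ℕ) * om N j k
        ≤ ∑ k ∈ Ioc 0 K, (S * (4 * 2 ^ j) : ℝ) := by
          refine Finset.sum_le_sum fun k hk => ?_
          simp only [mem_Ioc] at hk
          have hk1 : max 1 k = k := by omega
          rw [hk1]
          have hk2 : Real.sqrt (k : ℝ) ≤ S := by
            refine le_trans (Real.sqrt_le_sqrt ?_) hKS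
            exact_mod_cast hk.2
          have hk3 : om N j k ≤ 4 * 2 ^ j := by
            unfold om
            split_ifs
            · exact le_rfl
            · exact min_le_left _ _
          exact mul_le_mul hk2 hk3 (om_nonneg _ _ _) (by positivity)
      _ = K * (S * (4 * 2 ^ j)) := by
          rw [Finset.sum_const, nsmul_eq_mul, Nat.card_Ioc, Nat.sub_zero]
      _ ≤ 4 * N * S := by nlinarith
  have h3 : ∑ k ∈ Ioc K N, Real.sqrt (max 1 k : ℕ) * om N j k ≤ 4 * N * S := by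
    calc ∑ k ∈ Ioc K N, Real.sqrt (max 1 k : ℕ) * om N j k
        ≤ ∑ k ∈ Ioc K N, ((N : ℝ) ^ 2 / 2 ^ j) * (Real.sqrt k * ((k : ℝ) ^ 2)⁻¹) := by
          refine Finset.sum_le_sum fun k hk => ?_
          simp only [mem_Ioc] at hk
          have hk1 : max 1 k = k := by omega
          rw [hk1]
          have hk0 : (0 : ℝ) < k := by exact_mod_cast (by omega : 0 < k)
          have hk3 : om N j k ≤ (N : ℝ) ^ 2 / (2 ^ j * (k : ℝ) ^ 2) := by
            unfold om
            rw [if_neg (by omega)]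
            exact min_le_right _ _
          calc Real.sqrt (k : ℝ) * om N j k
              ≤ Real.sqrt (k : ℝ) * ((N : ℝ) ^ 2 / (2 ^ j * (k : ℝ) ^ 2)) := by gcongr
            _ = ((N : ℝ) ^ 2 / 2 ^ j) * (Real.sqrt k * ((k : ℝ) ^ 2)⁻¹) := by
                field_simp
      _ = ((N : ℝ) ^ 2 / 2 ^ j) * ∑ k ∈ Ioc K N, (Real.sqrt k * ((k : ℝ) ^ 2)⁻¹) := by
          rw [Finset.mul_sum]
      _ ≤ ((N : ℝ) ^ 2 / 2 ^ j) * (2 / Real.sqrt K - 2 / Real.sqrt N) := by
          refine mul_le_mul_of_nonneg_left ?_ (by positivity)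
          exact sqrt_tail K hK1 N hKN
      _ ≤ ((N : ℝ) ^ 2 / 2 ^ j) * (2 / Real.sqrt K) := by
          refine mul_le_mul_of_nonneg_left ?_ (by positivity)
          have : 0 ≤ 2 / Real.sqrt (N : ℝ) := by positivity
          linarith
      _ ≤ ((N : ℝ) ^ 2 / 2 ^ j) * (4 / S) := by
          refine mul_le_mul_of_nonneg_left ?_ (by positivity)
          have hsK : 0 < Real.sqrt (K : ℝ) := Real.sqrt_pos.mpr hK0
          rw [div_le_div_iff₀ hsK (by linarith)]
          linarith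
      _ = N * S ^ 2 * (4 / S) := by rw [hS2]; ring
      _ = 4 * N * S := by
          have : S ≠ 0 := by linarith
          field_simp
  rw [h1]
  have hNS : 0 ≤ N * S := by positivity
  nlinarith

lemma sum_inv_nrm_le : ∑ h : ZMod N, (1 / ((max 1 (nrm h) : ℕ) : ℝ)) ≤ 5 * (Nat.log 2 N + 1 : ℕ) := by
  refine (sum_nrm_le (fun k => (1 / ((max 1 k : ℕ) : ℝ))) (fun k => by positivity)).trans ?_
  have hN0 : (0 : ℝ) < N := by exact_mod_cast Nat.pos_of_ne_zero (NeZero.ne N)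
  have h1 : ∑ k ∈ Icc 1 N, (1 / ((max 1 k : ℕ) : ℝ)) = (harmonic N : ℝ) := by
    rw [harmonic_eq_sum_Icc]
    push_cast
    refine Finset.sum_congr rfl fun k hk => ?_
    simp only [mem_Icc] at hk
    have : (1 : ℝ) ≤ k := by exact_mod_cast hk.1
    rw [max_eq_right this, one_div]
  have h2 : (harmonic N : ℝ) ≤ 1 + Real.log N := harmonic_le_one_add_log N
  have h3 : Real.log N ≤ (Nat.log 2 N + 1 : ℕ) := by
    have h4 : (N : ℝ) ≤ 2 ^ (Nat.log 2 N + 1) := by
      exact_mod_cast (Nat.lt_pow_succ_log_self (by norm_num) N).le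
    calc Real.log N ≤ Real.log (2 ^ (Nat.log 2 N + 1)) := Real.log_le_log hN0 h4
      _ = (Nat.log 2 N + 1 : ℕ) * Real.log 2 := by rw [Real.log_pow]
      _ ≤ (Nat.log 2 N + 1 : ℕ) * 1 := by
          refine mul_le_mul_of_nonneg_left ?_ (Nat.cast_nonneg _)
          linarith [Real.log_two_lt_d9]
      _ = _ := mul_one _
  have h5 : (1 : ℝ) ≤ (Nat.log 2 N + 1 : ℕ) := by push_cast; linarith [Nat.cast_nonneg (α := ℝ) (Nat.log 2 N)]
  rw [h1]
  have h6 : (1 / ((max 1 0 : ℕ) : ℝ)) = 1 := by norm_num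
  rw [h6]
  linarith

end

end Pool.Agent.Helper3.Halton
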