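import Pool.Agent.Helper3.Halton.Fourier

/-!
# Trapezoidal functions: a positive multi-scale decomposition of an interval
-/

open Finset

namespace Pool.Agent.Helper3.Halton

/-- Trapezoid function of slope `1/w` on `[0, L)`. -/
noncomputable def th (L w n : ℕ) : ℝ :=
  if w ≤ L then ((min w (n + 1) - (n + w - L) : ℕ) : ℝ) / w else 0

/-- One dyadic piece of the indicator function of `[0, L)`. -/
noncomputable def psi (L j n : ℕ) : ℝ := th L (2 ^ j) n - th L (2 ^ (j + 1)) n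

lemma th_nonneg (L w n : ℕ) : 0 ≤ th L w n := by
  unfold th
  split_ifs
  · positivity
  · exact le_rfl

lemma th_eq_zero {L w n : ℕ} (h : L ≤ n) : th L w n = 0 := by
  unfold th
  split_ifs with h1
  · have : min w (n + 1) - (n + w - L) = 0 := by omega
    rw [this]; simp
  · rfl

lemma th_eq_zero' {L w n : ℕ} (h : L < w) : th L w n = 0 := by
  unfold th
  rw [if_neg (by omega)]

lemma th_one (L n : ℕ) : th L 1 n = if n < L then 1 else 0 := by
  unfold th
  by_cases h : n < L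
  · have h1 : 1 ≤ L := by omega
    have h2 : min 1 (n + 1) - (n + 1 - L) = 1 := by omega
    rw [if_pos h1, if_pos h, h2]; simp
  · rw [if_neg h]
    by_cases h1 : 1 ≤ L
    · have h2 : min 1 (n + 1) - (n + 1 - L) = 0 := by omega
      rw [if_pos h1, h2]; simp
    · rw [if_neg h1]

lemma th_anti (L w n : ℕ) (hw : 1 ≤ w) : th L (2 * w) n ≤ th L w n := by
  by_cases h1 : 2 * w ≤ L
  · have h2 : w ≤ L := by omega
    unfold th
    rw [if_pos h1, if_pos h2]
    have hw' : (0 : ℝ) < w := by exact_mod_cast hw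
    rw [div_le_div_iff₀ (by push_cast; positivity) hw']
    have h3 : (min (2 * w) (n + 1) - (n + 2 * w - L)) ≤ 2 * (min w (n + 1) - (n + w - L)) := by
      omega
    have h4 : ((min (2 * w) (n + 1) - (n + 2 * w - L) : ℕ) : ℝ)
        ≤ 2 * ((min w (n + 1) - (n + w - L) : ℕ) : ℝ) := by exact_mod_cast h3
    push_cast at h4 ⊢
    nlinarith
  · rw [th_eq_zero' (by omega)]
    exact th_nonneg _ _ _

lemma th_eq (L w n : ℕ) (hw : 1 ≤ w) (h1 : 2 * w ≤ n + 1) (h2 : n + 2 * w ≤ L) :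
    th L (2 * w) n = th L w n := by
  unfold th
  rw [if_pos (by omega), if_pos (by omega)]
  have h3 : (min (2 * w) (n + 1) - (n + 2 * w - L)) = 2 * w := by omega
  have h4 : (min w (n + 1) - (n + w - L)) = w := by omega
  have hw' : (w : ℝ) ≠ 0 := by positivity
  rw [h3, h4]
  push_cast
  rw [div_self (by positivity), div_self hw']

lemma psi_nonneg (L j n : ℕ) : 0 ≤ psi L j n := by
  unfold psi
  have := th_anti L (2 ^ j) n Nat.one_le_two_pow
  rw [pow_succ, mul_comm (2 ^ j) 2]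
  linarith

lemma sum_psi {L J : ℕ} (n : ℕ) (hL : L < 2 ^ (J + 1)) :
    ∑ j ∈ range (J + 1), psi L j n = if n < L then 1 else 0 := by
  unfold psi
  rw [Finset.sum_range_sub', pow_zero, th_one, th_eq_zero' hL, sub_zero]

lemma psi_support {L j n : ℕ} (h : psi L j n ≠ 0) :
    n < L ∧ (n < 2 ^ (j + 1) ∨ L ≤ n + 2 ^ (j + 1)) := by
  by_contra hc
  apply h
  unfold psi
  by_cases h1 : n < L
  · have h2 : ¬ (n < 2 ^ (j + 1) ∨ L ≤ n + 2 ^ (j + 1)) := fun h' => hc ⟨h1, h'⟩
    push Not at h2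
    rw [pow_succ, mul_comm (2 ^ j) 2] at h2 ⊢
    rw [th_eq L (2 ^ j) n Nat.one_le_two_pow (by omega) (by omega), sub_self]
  · rw [th_eq_zero (by omega), th_eq_zero (by omega), sub_zero]

lemma psi_le_one (L j n : ℕ) : psi L j n ≤ 1 := by
  have h1 : ∑ i ∈ range (max (Nat.log 2 L) j + 1), psi L i n = if n < L then 1 else 0 := by
    apply sum_psi
    calc L < 2 ^ (Nat.log 2 L + 1) := Nat.lt_pow_succ_log_self (by norm_num) L
      _ ≤ 2 ^ (max (Nat.log 2 L) j + 1) := Nat.pow_le_pow_right (by norm_num) (by omega)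
  have h2 : psi L j n ≤ ∑ i ∈ range (max (Nat.log 2 L) j + 1), psi L i n :=
    Finset.single_le_sum (f := fun i => psi L i n) (fun i _ => psi_nonneg L i n)
      (by simp only [mem_range]; omega)
  rw [h1] at h2
  refine h2.trans ?_
  split_ifs <;> norm_num

/-- Absolute value on `ZMod N`. -/
def nrm {N : ℕ} (h : ZMod N) : ℕ := h.valMinAbs.natAbs

section
variable {N : ℕ} [NeZero N]

lemma nrm_eq_zero {h : ZMod N} : nrm h = 0 ↔ h = 0 := by
  unfold nrm
  rw [Int.natAbs_eq_zero, ZMod.valMinAbs_eq_zero]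

lemma nrm_neg (h : ZMod N) : nrm (-h) = nrm h := by
  unfold nrm
  rw [ZMod.natAbs_valMinAbs_neg]

lemma nrm_le (h : ZMod N) : 2 * nrm h ≤ N := by
  unfold nrm
  have := ZMod.natAbs_valMinAbs_le h
  omega

/-- Bound for the Dirichlet kernel. -/
lemma dirichlet_bound (h : ZMod N) (hh : h ≠ 0) (n : ℕ) :
    ‖∑ k ∈ range n, (ZMod.stdAddChar (h * (k : ZMod N)) : ℂ)‖ ≤ N / (2 * nrm h) := by
  set z : ℂ := ZMod.stdAddChar h with hz
  have hN : (0 : ℝ) < N := by exact_mod_cast Nat.pos_of_ne_zero (NeZero.ne N)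
  have h1 : ∀ k : ℕ, (ZMod.stdAddChar (h * (k : ZMod N)) : ℂ) = z ^ k := by
    intro k
    rw [hz, ← AddChar.map_nsmul_eq_pow]
    congr 1
    rw [nsmul_eq_mul, mul_comm]
  simp_rw [h1]
  have hnr : (0 : ℝ) < nrm h := by
    have : nrm h ≠ 0 := fun h' => hh (nrm_eq_zero.mp h')
    exact_mod_cast Nat.pos_of_ne_zero this
  -- lower bound of `‖z - 1‖`
  have hz1 : 4 * (nrm h : ℝ) / N ≤ ‖z - 1‖ := by
    have e1 : z = Complex.exp (Complex.I * ((2 * Real.pi * h.valMinAbs / N : ℝ) : ℂ)) := by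
      rw [hz]
      conv_lhs => rw [← ZMod.coe_valMinAbs h]
      rw [ZMod.stdAddChar_coe]
      congr 1
      push_cast
      ring
    rw [e1, Complex.norm_exp_I_mul_ofReal_sub_one]
    have e2 : (2 * Real.pi * (h.valMinAbs : ℝ) / N) / 2 = Real.pi * h.valMinAbs / N := by ring
    rw [e2, norm_mul, Real.norm_eq_abs, Real.norm_eq_abs, abs_two]
    have e3 : |Real.sin (Real.pi * h.valMinAbs / N)| = Real.sin (Real.pi * (nrm h : ℝ) / N) := by
      have e4 : ((nrm h : ℕ) : ℝ) = |(h.valMinAbs : ℝ)| := by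
        unfold nrm
        rw [Nat.cast_natAbs]
        push_cast
        rfl
      have e5 : |Real.pi * (h.valMinAbs : ℝ) / N| = Real.pi * (nrm h : ℝ) / N := by
        rw [abs_div, abs_mul, abs_of_pos Real.pi_pos, e4, abs_of_pos hN]
      have e6 : Real.pi * (nrm h : ℝ) / N ≤ Real.pi := by
        rw [div_le_iff₀ hN]
        have : (2 * nrm h : ℝ) ≤ N := by exact_mod_cast nrm_le h
        nlinarith [Real.pi_pos]
      rw [← e5]
      rcases abs_cases (Real.pi * (h.valMinAbs : ℝ) / N) with ⟨h6, h7⟩ | ⟨h6, h7⟩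
      · rw [h6]
        rw [abs_of_nonneg]
        apply Real.sin_nonneg_of_nonneg_of_le_pi h7
        rw [← h6, e5]; exact e6
      · rw [h6, Real.sin_neg, abs_of_nonpos]
        have : 0 ≤ Real.sin (-(Real.pi * (h.valMinAbs : ℝ) / N)) := by
          apply Real.sin_nonneg_of_nonneg_of_le_pi (by linarith)
          rw [← h6, e5]; exact e6
        rw [Real.sin_neg] at this
        linarith
    rw [e3]
    have e7 : 2 / Real.pi * (Real.pi * (nrm h : ℝ) / N) ≤ Real.sin (Real.pi * (nrm h : ℝ) / N) := by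
      apply Real.mul_le_sin
      · positivity
      · rw [div_le_iff₀ hN]
        have : (2 * nrm h : ℝ) ≤ N := by exact_mod_cast nrm_le h
        nlinarith [Real.pi_pos]
    have e8 : 2 / Real.pi * (Real.pi * (nrm h : ℝ) / N) = 2 * nrm h / N := by
      field_simp
    rw [e8] at e7
    have e9 : 4 * (nrm h : ℝ) / N = 2 * (2 * nrm h / N) := by ring
    rw [e9]
    linarith
  have hzpos : 0 < ‖z - 1‖ := lt_of_lt_of_le (by positivity) hz1
  have hzne : z ≠ 1 := by
    intro h'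
    rw [h', sub_self, norm_zero] at hzpos
    exact lt_irrefl _ hzpos
  rw [geom_sum_eq hzne, norm_div, div_le_div_iff₀ hzpos (by positivity)]
  have hzn : ‖z ^ n - 1‖ ≤ 2 := by
    have e1 : ‖z‖ = 1 := AddChar.norm_apply _ _
    calc ‖z ^ n - 1‖ ≤ ‖z ^ n‖ + ‖(1 : ℂ)‖ := norm_sub_le _ _
      _ = 2 := by rw [norm_pow, e1]; norm_num
  rw [div_le_iff₀ hN] at hz1
  calc ‖z ^ n - 1‖ * (2 * (nrm h : ℝ)) ≤ 2 * (2 * (nrm h : ℝ)) := by gcongr
    _ = 4 * nrm h := by ring
    _ ≤ ‖z - 1‖ * N := hz1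
    _ = N * ‖z - 1‖ := by ring

lemma th_card (L w n : ℕ) (hw : w ≤ L) :
    ((min w (n + 1) - (n + w - L) : ℕ) : ℝ)
      = ∑ k ∈ range w, ∑ l ∈ range (L - w + 1), if k + l = n then (1 : ℝ) else 0 := by
  have h1 : ∀ k ∈ range w, (∑ l ∈ range (L - w + 1), if k + l = n then (1 : ℝ) else 0)
      = if k ∈ Ico (n + w - L) (min w (n + 1)) then 1 else 0 := by
    intro k hk
    simp only [mem_range] at hk
    by_cases h2 : k ∈ Ico (n + w - L) (min w (n + 1))
    · rw [if_pos h2]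
      simp only [mem_Ico] at h2
      rw [Finset.sum_eq_single (n - k)]
      · rw [if_pos (by omega)]
      · intro l _ hl
        rw [if_neg (by omega)]
      · intro hl
        simp only [mem_range] at hl
        omega
    · rw [if_neg h2]
      simp only [mem_Ico] at h2
      apply Finset.sum_eq_zero
      intro l hl
      simp only [mem_range] at hl
      rw [if_neg (by omega)]
  rw [Finset.sum_congr rfl h1, ← Finset.sum_filter]
  rw [Finset.sum_const, nsmul_eq_mul, mul_one]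
  congr 1
  rw [← Nat.card_Ico]
  congr 1
  ext k
  simp only [mem_Ico, mem_filter, mem_range]
  omega

lemma ft_th {L w : ℕ} (hw : 1 ≤ w) (hwL : w ≤ L) (hL : L ≤ N) (h : ZMod N) :
    ft (fun x : ZMod N => th L w x.val) h
      = (1 / (w : ℂ)) * ((∑ k ∈ range w, (ZMod.stdAddChar (-h * (k : ZMod N)) : ℂ)) *
          (∑ l ∈ range (L - w + 1), (ZMod.stdAddChar (-h * (l : ZMod N)) : ℂ))) := by
  have h1 : ∀ x : ZMod N, ((th L w x.val : ℝ) : ℂ) * ZMod.stdAddChar (-(h * x))
      = (1 / (w : ℂ)) * ∑ k ∈ range w, ∑ l ∈ range (L - w + 1),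
          if k + l = x.val then (ZMod.stdAddChar (-(h * x)) : ℂ) else 0 := by
    intro x
    unfold th
    rw [if_pos hwL, th_card L w x.val hwL]
    push_cast
    rw [div_mul_eq_mul_div, Finset.sum_mul, div_eq_mul_one_div, mul_comm]
    congr 1
    refine Finset.sum_congr rfl fun k _ => ?_
    rw [Finset.sum_mul]
    refine Finset.sum_congr rfl fun l _ => ?_
    split_ifs <;> simp
  unfold ft
  simp_rw [h1]
  rw [← Finset.mul_sum]
  congr 1
  rw [Finset.sum_comm, Finset.sum_mul]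
  refine Finset.sum_congr rfl fun k hk => ?_
  rw [Finset.sum_comm, Finset.mul_sum]
  refine Finset.sum_congr rfl fun l hl => ?_
  simp only [mem_range] at hk hl
  have hkl : k + l < N := by omega
  rw [Finset.sum_eq_single ((k + l : ℕ) : ZMod N)]
  · rw [ZMod.val_cast_of_lt hkl, if_pos rfl, ← AddChar.map_add_eq_mul]
    congr 1
    push_cast
    ring
  · intro x _ hx
    rw [if_neg]
    intro h'
    apply hx
    rw [h', ZMod.natCast_zmod_val]
  · intro h'
    exact absurd (mem_univ _) h'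

lemma ft_th_bound {L w : ℕ} (hw : 1 ≤ w) (hL : L ≤ N) (h : ZMod N) (hh : h ≠ 0) :
    ‖ft (fun x : ZMod N => th L w x.val) h‖ ≤ (N : ℝ) ^ 2 / (4 * w * (nrm h : ℝ) ^ 2) := by
  by_cases hwL : w ≤ L
  · rw [ft_th hw hwL hL, norm_mul, norm_mul, norm_div, norm_one, Complex.norm_natCast]
    have hh' : -h ≠ 0 := neg_ne_zero.mpr hh
    have h1 := dirichlet_bound (-h) hh' w
    have h2 := dirichlet_bound (-h) hh' (L - w + 1)
    rw [nrm_neg] at h1 h2
    have hnr : (0 : ℝ) < nrm h := by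
      have : nrm h ≠ 0 := fun h' => hh (nrm_eq_zero.mp h')
      exact_mod_cast Nat.pos_of_ne_zero this
    have hw' : (0 : ℝ) < w := by exact_mod_cast hw
    calc 1 / (w : ℝ) * (‖∑ k ∈ range w, (ZMod.stdAddChar (-h * (k : ZMod N)) : ℂ)‖ *
          ‖∑ l ∈ range (L - w + 1), (ZMod.stdAddChar (-h * (l : ZMod N)) : ℂ)‖)
        ≤ 1 / (w : ℝ) * ((N / (2 * nrm h)) * (N / (2 * nrm h))) := by gcongr
      _ = (N : ℝ) ^ 2 / (4 * w * (nrm h : ℝ) ^ 2) := by
          field_simp
          norm_num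
  · have : ft (fun x : ZMod N => th L w x.val) h = 0 := by
      unfold ft
      apply Finset.sum_eq_zero
      intro x _
      show ((th L w x.val : ℝ) : ℂ) * _ = 0
      rw [th_eq_zero' (by omega)]
      simp
    rw [this, norm_zero]
    positivity

/-- The bound for the Fourier coefficients of `psi`. -/
noncomputable def om (N j k : ℕ) : ℝ :=
  if k = 0 then 4 * 2 ^ j else min (4 * 2 ^ j) ((N : ℝ) ^ 2 / (2 ^ j * (k : ℝ) ^ 2))

lemma om_nonneg (N j k : ℕ) : 0 ≤ om N j k := by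
  unfold om
  split_ifs
  · positivity
  · positivity

lemma psi_sum_le {L : ℕ} (j : ℕ) (hL : L ≤ N) : ∑ x : ZMod N, psi L j x.val ≤ 4 * 2 ^ j := by
  have h1 : ∀ x : ZMod N, psi L j x.val
      ≤ ∑ n ∈ range (2 ^ (j + 1)), (if x = ((n : ℕ) : ZMod N) then (1 : ℝ) else 0)
        + ∑ n ∈ Ico (L - 2 ^ (j + 1)) L, (if x = ((n : ℕ) : ZMod N) then (1 : ℝ) else 0) := by
    intro x
    have hA : 0 ≤ ∑ n ∈ range (2 ^ (j + 1)), (if x = ((n : ℕ) : ZMod N) then (1 : ℝ) else 0) :=
      Finset.sum_nonneg fun n _ => by split_ifs <;> norm_num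
    have hB : 0 ≤ ∑ n ∈ Ico (L - 2 ^ (j + 1)) L,
        (if x = ((n : ℕ) : ZMod N) then (1 : ℝ) else 0) :=
      Finset.sum_nonneg fun n _ => by split_ifs <;> norm_num
    by_cases h0 : psi L j x.val = 0
    · rw [h0]; positivity
    · obtain ⟨h1, h2⟩ := psi_support h0
      have h3 := psi_le_one L j x.val
      have hx : x = ((x.val : ℕ) : ZMod N) := by rw [ZMod.natCast_zmod_val]
      rcases h2 with h2 | h2
      · have h4 : (1 : ℝ) ≤ ∑ n ∈ range (2 ^ (j + 1)),
            (if x = ((n : ℕ) : ZMod N) then (1 : ℝ) else 0) := by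
          have := Finset.single_le_sum (f := fun n : ℕ => if x = ((n : ℕ) : ZMod N) then (1 : ℝ)
            else 0) (s := range (2 ^ (j + 1))) (fun n _ => by
              show (0 : ℝ) ≤ if x = ((n : ℕ) : ZMod N) then (1 : ℝ) else 0
              split_ifs <;> norm_num) (mem_range.mpr h2)
          rwa [if_pos hx] at this
        linarith
      · have h4 : (1 : ℝ) ≤ ∑ n ∈ Ico (L - 2 ^ (j + 1)) L,
            (if x = ((n : ℕ) : ZMod N) then (1 : ℝ) else 0) := by
          have := Finset.single_le_sum (f := fun n : ℕ => if x = ((n : ℕ) : ZMod N) then (1 : ℝ)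
            else 0) (s := Ico (L - 2 ^ (j + 1)) L) (fun n _ => by
              show (0 : ℝ) ≤ if x = ((n : ℕ) : ZMod N) then (1 : ℝ) else 0
              split_ifs <;> norm_num) (mem_Ico.mpr ⟨by omega, h1⟩)
          rwa [if_pos hx] at this
        linarith
  refine (Finset.sum_le_sum fun x _ => h1 x).trans ?_
  rw [Finset.sum_add_distrib, Finset.sum_comm, Finset.sum_comm (s := univ) (t := Ico _ _)]
  simp only [Finset.sum_ite_eq', mem_univ, if_true, Finset.sum_const, card_range, Nat.card_Ico,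
    nsmul_eq_mul, mul_one]
  have h5 : ((L - (L - 2 ^ (j + 1)) : ℕ) : ℝ) ≤ 2 ^ (j + 1) := by
    have : L - (L - 2 ^ (j + 1)) ≤ 2 ^ (j + 1) := by
      generalize 2 ^ (j + 1) = w
      omega
    calc ((L - (L - 2 ^ (j + 1)) : ℕ) : ℝ) ≤ ((2 ^ (j + 1) : ℕ) : ℝ) := by exact_mod_cast this
      _ = 2 ^ (j + 1) := by push_cast; rfl
  push_cast
  have h6 : (2 : ℝ) ^ (j + 1) = 2 * 2 ^ j := by rw [pow_succ]; ring
  linarith

lemma psi_sum_nonneg (L j : ℕ) : 0 ≤ ∑ x : ZMod N, psi L j x.val :=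
  Finset.sum_nonneg fun x _ => psi_nonneg _ _ _

lemma ft_psi_bound {L : ℕ} (j : ℕ) (hL : L ≤ N) (h : ZMod N) :
    ‖ft (fun x : ZMod N => psi L j x.val) h‖ ≤ om N j (nrm h) := by
  have h1 : ‖ft (fun x : ZMod N => psi L j x.val) h‖ ≤ 4 * 2 ^ j := by
    refine (norm_sum_le _ _).trans ?_
    refine le_trans (Finset.sum_le_sum (g := fun x : ZMod N => psi L j x.val) fun x _ => ?_)
      (psi_sum_le j hL)
    rw [norm_mul]
    have : ‖(ZMod.stdAddChar (-(h * x)) : ℂ)‖ = 1 := AddChar.norm_apply _ _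
    rw [this, mul_one, Complex.norm_real, Real.norm_eq_abs, abs_of_nonneg (psi_nonneg _ _ _)]
  unfold om
  split_ifs with h0
  · exact h1
  · refine le_min h1 ?_
    have hh : h ≠ 0 := fun h' => h0 (nrm_eq_zero.mpr h')
    have h2 : ft (fun x : ZMod N => psi L j x.val) h
        = ft (fun x : ZMod N => th L (2 ^ j) x.val) h
          - ft (fun x : ZMod N => th L (2 ^ (j + 1)) x.val) h := by
      unfold ft psi
      rw [← Finset.sum_sub_distrib]
      refine Finset.sum_congr rfl fun x _ => ?_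
      push_cast
      ring
    rw [h2]
    refine (norm_sub_le _ _).trans ?_
    have h3 := ft_th_bound (w := 2 ^ j) Nat.one_le_two_pow hL h hh
    have h4 := ft_th_bound (w := 2 ^ (j + 1)) Nat.one_le_two_pow hL h hh
    have hnr : (0 : ℝ) < nrm h := by
      exact_mod_cast Nat.pos_of_ne_zero h0
    have h5 : (N : ℝ) ^ 2 / (4 * ((2 ^ j : ℕ) : ℝ) * (nrm h : ℝ) ^ 2)
        + (N : ℝ) ^ 2 / (4 * ((2 ^ (j + 1) : ℕ) : ℝ) * (nrm h : ℝ) ^ 2)
        = (3 / 8) * ((N : ℝ) ^ 2 / (2 ^ j * (nrm h : ℝ) ^ 2)) := by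
      push_cast
      rw [pow_succ (2 : ℝ) j]
      field_simp
      ring
    have h6 : 0 ≤ ((N : ℝ) ^ 2 / (2 ^ j * (nrm h : ℝ) ^ 2)) := by positivity
    linarith

end

end Pool.Agent.Helper3.Halton
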